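import Pool.Agent.Run7.h621.LA.Exc
import Pool.Agent.Run7.h621.LG.Data
import Pool.Agent.Run7.h621.LA.Principle

/-!
The extended derivations for forms some of whose coefficients are generic, and the property of the
exceptional points.
-/

set_option autoImplicit false
set_option linter.unusedSectionVars false

open MvPolynomial
open Pool.Agent.W602.RG
open Pool.Agent.Run7.h621.NG (Bt cj sum_Bt sum_split Dr Dr_apply θr)
open Pool.Agent.Run7.h621.FV (cd coeff_cd)
open Pool.Agent.Run7.h621.MP (NF NF_eq cd_NF Qr cd_Dr Vr)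
open Pool.Agent.Run7.h621.LG (Dg fw)

namespace Pool.Agent.Run7.h621.LA

section data

variable {k0 A σ : Type} [Field k0] {J : A → Type} [∀ a, Fintype (J a)]
  {P : ∀ a, J a → MvPolynomial σ k0} {j0 : ∀ a, J a}

open scoped Classical in
/-- The vector of a monomial. -/
noncomputable def rho (jj : ∀ a, (σ →₀ ℕ) → J a) {L : Type} [Field L] (c : Bt j0 → L) (a : A)
    (I : σ →₀ ℕ) (q : Bt j0) : L :=
  if jj a I = j0 a then (if q.1 = a then - c q else 0) else
    if ∃ h : jj a I ≠ j0 a, q = ⟨a, jj a I, h⟩ then 1 else 0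

/-- The additional components. -/
noncomputable def th (jj : ∀ a, (σ →₀ ℕ) → J a) {L : Type} [Field L] {B : Set (Bt j0)}
    (c : Bt j0 → L) (M : B → Bt j0 → L) (a : A) (I : σ →₀ ℕ) (r : {b : Bt j0 // b ∉ B}) : L :=
  (∑ᶠ b : B, rho jj c a I b * M b r) - rho jj c a I r

theorem th_eq (jj : ∀ a, (σ →₀ ℕ) → J a) {L : Type} [Field L] {B : Set (Bt j0)} [Fintype B]
    (c : Bt j0 → L) (δ : B → Derivation ℤ L L) (a : A) (I : σ →₀ ℕ)
    (r : {b : Bt j0 // b ∉ B}) :
    th jj c (fun b q => δ b (c q)) a I r = θr δ c (rho jj c a I) r := by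
  rw [th, θr, finsum_eq_sum_of_fintype]

/-- The extended derivations. -/
theorem data [Fintype A] [DecidableEq A] {L : Type} [Field L] [Algebra k0 L]
    {B : Set (Bt j0)} [Fintype B] [Fintype {b : Bt j0 // b ∉ B}] (δ : B → Derivation ℤ L L)
    (hδk : ∀ b (r : k0), δ b (algebraMap k0 L r) = 0) (c : Bt j0 → L)
    (hδ : ∀ b b' : B, b = b' ∧ δ b (c b') = 1 ∨ b ≠ b' ∧ δ b (c b') = 0)
    {G : A → Set (σ →₀ ℕ)} {jI : ∀ a, (σ →₀ ℕ) → J a}
    (hjI : ∀ a, ∀ I ∈ G a, P a (jI a I) = monomial I 1) :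
    (∀ a I q, rho jI c a I q = 0 ∨ rho jI c a I q = 1 ∨ rho jI c a I q = - c q) ∧
    ∃ (ε : A → (σ →₀ ℕ) → L), (∀ a I, ε a I = 0 ∨ ε a I = 1) ∧
      ∀ a b, ∀ I ∈ G a, cd (Dr δ (rho jI c a I)) (NF P j0 c b) =
        (if a = b then monomial I 1 - ε a I • NF P j0 c b else 0) +
          ∑ r, θr δ c (rho jI c a I) r • Qr P L B r b := by
  classical
  have hδ' : ∀ b b' : B, δ b (c b') = if b = b' then 1 else 0 := by
    intro b b'
    rcases hδ b b' with ⟨h1, h2⟩ | ⟨h1, h2⟩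
    · rw [if_pos h1, h2]
    · rw [if_neg h1, h2]
  have hrho : ∀ a I q, rho jI c a I q = if jI a I = j0 a then (if q.1 = a then - c q else 0) else
    if ∃ h : jI a I ≠ j0 a, q = ⟨a, jI a I, h⟩ then 1 else 0 := fun a I q => by
    unfold rho
    congr
  refine ⟨fun a I q => ?_, fun a I => if jI a I = j0 a then 1 else 0, fun a I => ?_,
    fun a b I hI => ?_⟩
  · rw [hrho]
    split_ifs
    · exact Or.inr (Or.inr rfl)
    · exact Or.inl rfl
    · exact Or.inr (Or.inl rfl)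
    · exact Or.inl rfl
  · dsimp only
    split_ifs
    · exact Or.inr rfl
    · exact Or.inl rfl
  rw [cd_Dr δ hδk c hδ']
  congr 1
  have hm : map (algebraMap k0 L) (P a (jI a I)) = monomial I 1 := by
    rw [hjI a I hI, map_monomial, map_one]
  simp only [hrho]
  by_cases hj : jI a I = j0 a
  · simp only [if_pos hj, one_smul]
    by_cases hab : a = b
    · subst hab
      rw [if_pos rfl, ← hm, hj]
      have h1 := NF_eq (P := P) c a
      have h2 : (∑ᶠ q : Bt j0, if q.1 = a then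
          (if q.1 = a then - c q else 0) • map (algebraMap k0 L) (P q.1 q.2.1) else 0) =
          - ∑ᶠ q : Bt j0, if q.1 = a then
            c q • map (algebraMap k0 L) (P q.1 q.2.1) else 0 := by
        rw [← finsum_neg_distrib]
        refine finsum_congr fun q => ?_
        split_ifs
        · rw [neg_smul]
        · rw [neg_zero]
      rw [h2, h1]
      abel
    · rw [if_neg hab]
      refine (finsum_congr fun q => ?_).trans finsum_zero
      split_ifs with h1 h2
      · exact absurd (h2.symm.trans h1) hab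
      · rw [zero_smul]
      · rfl
  · simp only [if_neg hj, zero_smul, sub_zero]
    rw [finsum_eq_single _ (⟨a, jI a I, hj⟩ : Bt j0)]
    · have h1 : (∃ (h : jI a I ≠ j0 a),
          (⟨a, jI a I, hj⟩ : Bt j0) = ⟨a, jI a I, h⟩) := Exists.intro hj rfl
      rw [if_pos h1, one_smul]
      by_cases hab : a = b
      · subst hab
        rw [if_pos rfl, if_pos rfl]
        exact hm
      · rw [if_neg hab, if_neg hab]
    · intro q hq
      rw [if_neg (c := ∃ h : jI a I ≠ j0 a, q = ⟨a, jI a I, h⟩) (by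
        rintro ⟨h, h'⟩
        exact hq h'), zero_smul, ite_self]

/-- Nondegeneracy. -/
theorem th_nondeg [Fintype A] {L : Type} [Field L] {B : Set (Bt j0)}
    [Fintype {b : Bt j0 // b ∉ B}] (c : Bt j0 → L) (M : B → Bt j0 → L)
    {G : A → Set (σ →₀ ℕ)} {jI : ∀ a, (σ →₀ ℕ) → J a}
    (hmo : ∀ a j, ∃ I ∈ G a, jI a I = j) (w : {b : Bt j0 // b ∉ B} → L)
    (h : ∀ a, ∀ I ∈ G a, ∑ r, th jI c M a I r * w r = 0) : w = 0 := by
  classical
  funext r
  obtain ⟨⟨a, j, hj⟩, hr⟩ := r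
  obtain ⟨I, hI, hIj⟩ := hmo a j
  have h1 := h a I hI
  have h2 : ∀ q : Bt j0, rho jI c a I q = if q = ⟨a, j, hj⟩ then 1 else 0 := by
    intro q
    rw [rho, if_neg (by rw [hIj]; exact hj)]
    have h3 : (∃ h : jI a I ≠ j0 a, q = ⟨a, jI a I, h⟩) ↔ q = ⟨a, j, hj⟩ := by
      subst hIj
      exact ⟨fun ⟨_, h⟩ => h, fun h => ⟨hj, h⟩⟩
    by_cases h4 : q = ⟨a, j, hj⟩
    · rw [if_pos (h3.2 h4), if_pos h4]
    · rw [if_neg fun h5 => h4 (h3.1 h5), if_neg h4]
  have h3 : ∀ r' : {b : Bt j0 // b ∉ B}, th jI c M a I r' =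
      - if r' = ⟨⟨a, j, hj⟩, hr⟩ then 1 else 0 := by
    intro r'
    rw [th, h2]
    have h5 : ∑ᶠ b : B, rho jI c a I b * M b r' = 0 := by
      refine (finsum_congr fun b => ?_).trans finsum_zero
      rw [h2, if_neg, zero_mul]
      intro h
      exact hr (h ▸ b.2)
    rw [h5, zero_sub]
    congr 1
    by_cases h6 : r' = ⟨⟨a, j, hj⟩, hr⟩
    · rw [if_pos h6, if_pos (by rw [h6])]
    · rw [if_neg h6, if_neg fun h7 => h6 (Subtype.ext h7)]
  rw [Finset.sum_eq_single (⟨⟨a, j, hj⟩, hr⟩ : {b : Bt j0 // b ∉ B})] at h1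
  · rw [h3, if_pos rfl, neg_one_mul, neg_eq_zero] at h1
    exact h1
  · intro r' _ hr'
    rw [h3, if_neg hr', neg_zero, zero_mul]
  · intro h4
    exact absurd (Finset.mem_univ _) h4

theorem rho_map (jj : ∀ a, (σ →₀ ℕ) → J a) {L L' : Type} [Field L] [Field L'] (f : L →+* L')
    (c : Bt j0 → L) (a : A) (I : σ →₀ ℕ) (q : Bt j0) :
    rho jj (fun b => f (c b)) a I q = f (rho jj c a I q) := by
  unfold rho
  split_ifs
  · rw [map_neg]
  · rw [map_zero]
  · rw [map_one]
  · rw [map_zero]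

theorem th_map [Finite (Bt j0)] (jj : ∀ a, (σ →₀ ℕ) → J a) {L L' : Type} [Field L] [Field L']
    (f : L →+* L') {B : Set (Bt j0)} (c : Bt j0 → L) (M : B → Bt j0 → L) (a : A) (I : σ →₀ ℕ)
    (r : {b : Bt j0 // b ∉ B}) :
    th jj (fun b => f (c b)) (fun b q => f (M b q)) a I r = f (th jj c M a I r) := by
  classical
  have := Fintype.ofFinite B
  rw [th, th, map_sub, rho_map, finsum_eq_sum_of_fintype, finsum_eq_sum_of_fintype, map_sum]
  congr 1
  exact Finset.sum_congr rfl fun b _ => by rw [map_mul, rho_map]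

end data

section ex

variable {A : Type} {n : Unit → ℕ} {J : A → Type} [∀ a, Fintype (J a)] {j0 : ∀ a, J a}

/-- The exceptional points. -/
def ExP (jj : ∀ a, (Vr n →₀ ℕ) → J a) (dg : A → Unit → ℕ) (q0 : ℕ) (p0 : Vr n)
    (B : Set (Bt j0)) : ExT (Vr n) B :=
  fun _ _ c M x => ∃ N, N + 2 ≤ 2 * q0 ∧ ExcAt (th jj c M) dg N p0 x

theorem ex_up [Finite (Bt j0)] (jj : ∀ a, (Vr n →₀ ℕ) → J a) (dg : A → Unit → ℕ) (q0 : ℕ)
    (p0 : Vr n) (B : Set (Bt j0)) : Up (ExP jj dg q0 p0 B) := by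
  rintro Λ Λ' _ _ f c M x ⟨N, hN, p1, lam, M', Y, h⟩
  refine ⟨N, hN, p1, fun p => f (lam p), fun z r => f (M' z r), fun a G p z => f (Y a G p z),
    fun a G hG p r => ?_⟩
  have h1 := congrArg f (h a G hG p r)
  simp only [map_sub, map_mul, map_sum] at h1
  simp only [th_map]
  exact h1

theorem finite_Dg (p0 : Vr n) (d : Unit → ℕ) :
    {G : Vr n →₀ ℕ | Dg (G + Finsupp.single p0 1) d}.Finite := by
  classical
  refine (Set.finite_Iic (Finsupp.equivFunOnFinite.symm fun _ : Vr n => d ())).subset ?_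
  intro G hG
  rw [Set.mem_Iic, Finsupp.le_def]
  intro p
  have h1 := Pool.Agent.Run7.h621.LG.Dg_iff.1 hG
  have h2 : (G + Finsupp.single p0 1 : Vr n →₀ ℕ) p ≤ ∑ p, (G + Finsupp.single p0 1 : Vr n →₀ ℕ) p :=
    Finset.single_le_sum (f := fun p => (G + Finsupp.single p0 1 : Vr n →₀ ℕ) p)
      (fun _ _ => Nat.zero_le _) (Finset.mem_univ p)
  have h3 : G p ≤ (G + Finsupp.single p0 1 : Vr n →₀ ℕ) p := by
    rw [Finsupp.add_apply]
    exact Nat.le_add_right _ _
  change G p ≤ d ()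
  omega

theorem ex_down [Fintype A] [Finite (Bt j0)] (jj : ∀ a, (Vr n →₀ ℕ) → J a)
    (dg : A → Unit → ℕ) (q0 : ℕ) (p0 : Vr n) (B : Set (Bt j0)) :
    Down (ExP jj dg q0 p0 B) := by
  classical
  rintro K _ c M x ⟨N, hN, p1, lam, M', Y, h⟩
  choose lam' hlam' using fun p => Om.mk_surj (lam p)
  choose M'' hM'' using fun z r => Om.mk_surj (M' z r)
  choose Y' hY' using fun a G p z => Om.mk_surj (Y a G p z)
  have hmk : ∀ u v : ℕ → K, Om.mk u - Om.mk v = Om.mk fun n => u n - v n := fun u v => rfl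
  have hsum : ∀ (s : Finset (Fin N)) (g : Fin N → ℕ → K), ∑ z ∈ s, Om.mk (g z) =
      Om.mk fun n => ∑ z ∈ s, g z n := fun s g =>
    (Pool.Agent.W61.RG.GSP.mk_sum s g).symm
  have h1 : ∀ a, ∀ G ∈ {G : Vr n →₀ ℕ | Dg (G + Finsupp.single p0 1) (dg a)}, ∀ p r,
      ∀ᶠ m in (Filter.hyperfilter ℕ : Filter ℕ),
      (th jj c M a (G + Finsupp.single p 1) r - x m p * th jj c M a (G + Finsupp.single p0 1) r) -
        lam' p m * (th jj c M a (G + Finsupp.single p1 1) r -
          x m p1 * th jj c M a (G + Finsupp.single p0 1) r) =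
      ∑ z, Y' a G p z m * M'' z r m := by
    intro a G hG p r
    have h2 := h a G hG p r
    simp only [th_map] at h2
    simp only [cst_apply, ← hlam', ← hM'', ← hY', Om.mk_mul, hmk, hsum] at h2
    rwa [Om.mk_eq] at h2
  have h2 : ∀ᶠ m in (Filter.hyperfilter ℕ : Filter ℕ), ∀ a,
      ∀ G ∈ {G : Vr n →₀ ℕ | Dg (G + Finsupp.single p0 1) (dg a)}, ∀ p r,
      (th jj c M a (G + Finsupp.single p 1) r - x m p * th jj c M a (G + Finsupp.single p0 1) r) -
        lam' p m * (th jj c M a (G + Finsupp.single p1 1) r -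
          x m p1 * th jj c M a (G + Finsupp.single p0 1) r) =
      ∑ z, Y' a G p z m * M'' z r m := by
    rw [Filter.eventually_all]
    intro a
    rw [Filter.eventually_all_finite (finite_Dg p0 (dg a))]
    intro G hG
    rw [Filter.eventually_all]
    intro p
    rw [Filter.eventually_all]
    intro r
    exact h1 a G hG p r
  obtain ⟨m, hm⟩ := h2.exists
  exact ⟨m, N, hN, p1, fun p => lam' p m, fun z r => M'' z r m, fun a G p z => Y' a G p z m,
    fun a G hG p r => hm a G hG p r⟩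

end ex

end Pool.Agent.Run7.h621.LA
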