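import Pool.Agent.Run7.h621.LG.Lines

/-!
Exceptional points: the linear conditions on the forms are, up to a few, conditions on the
restrictions to a line.
-/

set_option autoImplicit false
set_option linter.unusedSectionVars false

open Pool.Agent.Run7.h621.MP (Vr Rd R Eu)

namespace Pool.Agent.Run7.h621.LA

open Pool.Agent.Run7.h621.LG

variable {n : Unit → ℕ} {L : Type} [Field L] {A S Sb X : Type}

/-- The point `x` is exceptional. -/
def ExcAt (θ : A → (Vr n →₀ ℕ) → S → L) (dg : A → Unit → ℕ) (N : ℕ) (p0 : Vr n)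
    (x : Vr n → L) : Prop :=
  ∃ (p1 : Vr n) (lam : Vr n → L) (M : Fin N → S → L)
    (Y : A → (Vr n →₀ ℕ) → Vr n → Fin N → L),
    ∀ a G, Dg (G + Finsupp.single p0 1) (dg a) → ∀ p r,
      (θ a (G + Finsupp.single p 1) r - x p * θ a (G + Finsupp.single p0 1) r) -
        lam p * (θ a (G + Finsupp.single p1 1) r - x p1 * θ a (G + Finsupp.single p0 1) r) =
      ∑ z, Y a G p z * M z r

section max

variable [Fintype A] [Fintype S] {c : ∀ i, Fin (n i + 1)}
  {dg : A → Unit → ℕ} {D : A → (Vr n →₀ ℕ) → Derivation ℤ L L}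
  {θE : A → (Vr n →₀ ℕ) → S ⊕ Sb → L} {x : Vr n → L} {ι0 β : Type} [Fintype β]
  {v0 : ι0 → Vr n ⊕ (S ⊕ Sb) → L} {t : β ⊕ β → Ti A n}

/-- If there are no further pairs then the point is exceptional. -/
theorem exc_of_max (hc : ∀ i, x ⟨i, c i⟩ = 1)
    (hv0 : ∀ i r, v0 i (Sum.inr (Sum.inl r)) = 0)
    (hθ : ∀ w : S → L, (∀ a I, Dg I (dg a) →
      fw (fun a I r => θE a I (Sum.inl r)) w a I = 0) → w = 0)
    (hm : ∀ k1 k2 : Ti A n, Rel k1 k2 → ¬ LinearIndependent L
        ![(Submodule.span L (Set.range (Sum.elim v0 (T c dg D θE x ∘ t)))).mkQ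
            (T c dg D θE x k1),
          (Submodule.span L (Set.range (Sum.elim v0 (T c dg D θE x ∘ t)))).mkQ
            (T c dg D θE x k2)])
    (hs1 : Fintype.card A + 2 * Fintype.card β + 2 ≤ Fintype.card S) :
    ExcAt (fun a I r => θE a I (Sum.inl r)) dg (Fintype.card (β ⊕ β)) ⟨(), c ()⟩ x := by
  classical
  obtain ⟨V, hV⟩ : ∃ V, V = Submodule.span L (Set.range (Sum.elim v0 (T c dg D θE x ∘ t))) :=
    ⟨_, rfl⟩
  rw [← hV] at hm
  obtain ⟨θ, hθd⟩ : ∃ θ : A → (Vr n →₀ ℕ) → S → L, θ = fun a I r => θE a I (Sum.inl r) := ⟨_, rfl⟩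
  rw [← hθd] at hθ
  obtain ⟨p0, hp0⟩ : ∃ p0 : Vr n, p0 = ⟨(), c ()⟩ := ⟨_, rfl⟩
  obtain ⟨M, hM⟩ : ∃ M : β ⊕ β → S → L, ∀ z r, M z r = T c dg D θE x (t z) (Sum.inr (Sum.inl r)) :=
    ⟨_, fun _ _ => rfl⟩
  have hPV : ∀ w ∈ kerW M, ∀ v ∈ V, Psi n Sb w v = 0 := by
    intro w hw v hv
    have h1 : V ≤ LinearMap.ker (Psi n Sb w) := by
      rw [hV, Submodule.span_le]
      rintro _ ⟨i | z, rfl⟩
      · change Psi n Sb w (v0 i) = 0
        refine Finset.sum_eq_zero fun r _ => ?_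
        rw [hv0, zero_mul]
      · change Psi n Sb w (T c dg D θE x (t z)) = 0
        have h2 := hw z
        simp only [hM] at h2
        exact h2
    exact h1 hv
  have hVM : ∀ v ∈ V, ∃ y : β ⊕ β → L, ∀ r, v (Sum.inr (Sum.inl r)) = ∑ z, y z * M z r := by
    intro v hv
    rw [hV] at hv
    refine Submodule.span_induction (p := fun v _ => ∃ y : β ⊕ β → L, ∀ r,
      v (Sum.inr (Sum.inl r)) = ∑ z, y z * M z r) ?_ ?_ ?_ ?_ hv
    · rintro _ ⟨i | z, rfl⟩
      · refine ⟨0, fun r => ?_⟩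
        change v0 i (Sum.inr (Sum.inl r)) = _
        rw [hv0]
        exact (Finset.sum_eq_zero fun z _ => by rw [Pi.zero_apply, zero_mul]).symm
      · refine ⟨Pi.single z 1, fun r => ?_⟩
        change T c dg D θE x (t z) (Sum.inr (Sum.inl r)) = _
        rw [Finset.sum_eq_single z, Pi.single_eq_same, one_mul, hM]
        · intro z' _ hz'
          rw [Pi.single_eq_of_ne hz', zero_mul]
        · intro h
          exact absurd (Finset.mem_univ _) h
    · exact ⟨0, fun r => (Finset.sum_eq_zero fun z _ => by rw [Pi.zero_apply, zero_mul]).symm⟩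
    · rintro v v' _ _ ⟨y, hy⟩ ⟨y', hy'⟩
      refine ⟨y + y', fun r => ?_⟩
      rw [Pi.add_apply, hy, hy', ← Finset.sum_add_distrib]
      exact Finset.sum_congr rfl fun z _ => by rw [Pi.add_apply, add_mul]
    · rintro s v _ ⟨y, hy⟩
      refine ⟨s • y, fun r => ?_⟩
      rw [Pi.smul_apply, hy, smul_eq_mul, Finset.mul_sum]
      exact Finset.sum_congr rfl fun z _ => by rw [Pi.smul_apply, smul_eq_mul, mul_assoc]
  have hPT : ∀ (w : S → L) (a : A) (G : Vr n →₀ ℕ), Dg (G + Finsupp.single p0 1) (dg a) → ∀ p,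
      Psi n Sb w (T c dg D θE x ({(a, G)}, p)) =
      fw θ w a (G + Finsupp.single p 1) - x p * fw θ w a (G + Finsupp.single p0 1) := by
    intro w a G hG p
    rw [hp0] at hG ⊢
    rw [hθd]
    exact Psi_T hc w hG p
  have hTr : ∀ (a : A) (G : Vr n →₀ ℕ), Dg (G + Finsupp.single p0 1) (dg a) → ∀ p r,
      T c dg D θE x ({(a, G)}, p) (Sum.inr (Sum.inl r)) =
      θ a (G + Finsupp.single p 1) r - x p * θ a (G + Finsupp.single p0 1) r := by
    intro a G hG p r
    have h1 := hPT (Pi.single r 1) a G hG p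
    have h2 : ∀ f : S → L, ∑ r', f r' * (Pi.single r 1 : S → L) r' = f r := by
      intro f
      rw [Finset.sum_eq_single r, Pi.single_eq_same, mul_one]
      · intro z' _ hz'
        rw [Pi.single_eq_of_ne hz', mul_zero]
      · intro h
        exact absurd (Finset.mem_univ _) h
    rw [fw, fw, h2, h2] at h1
    rw [← h1]
    exact (h2 fun r' => T c dg D θE x ({(a, G)}, p) (Sum.inr (Sum.inl r'))).symm
  obtain ⟨tQ, htQ⟩ : ∃ tQ : A × (Vr n →₀ ℕ) → Vr n → ((Vr n ⊕ (S ⊕ Sb) → L) ⧸ V),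
      ∀ g p, tQ g p = V.mkQ (T c dg D θE x ({g}, p)) := ⟨_, fun _ _ => rfl⟩
  have hmemV : ∀ (g g' : A × (Vr n →₀ ℕ)) (p p' : Vr n) (z : L), tQ g p = z • tQ g' p' →
      T c dg D θE x ({g}, p) - z • T c dg D θE x ({g'}, p') ∈ V := by
    intro g g' p p' z h
    rwa [htQ, htQ, ← map_smul, ← sub_eq_zero, ← map_sub, Submodule.mkQ_apply,
      Submodule.Quotient.mk_eq_zero] at h
  have hmod : ∀ (g g' : A × (Vr n →₀ ℕ)) (p p' : Vr n) (z : L), tQ g p = z • tQ g' p' →
      ∀ w ∈ kerW M, Psi n Sb w (T c dg D θE x ({g}, p)) =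
        z * Psi n Sb w (T c dg D θE x ({g'}, p')) := by
    intro g g' p p' z h w hw
    have h1 := hPV w hw _ (hmemV g g' p p' z h)
    rw [map_sub, map_smul, smul_eq_mul] at h1
    exact sub_eq_zero.1 h1
  rcases contact tQ (fun g p p' => by
      rw [htQ, htQ]
      exact hm _ _ ⟨rfl, Subsingleton.elim _ _⟩) (fun g g' hg p p' => by
      rw [htQ, htQ, htQ, htQ, ← map_add, ← map_add, ← T_add hg, ← T_add hg]
      exact hm _ _ ⟨rfl, Subsingleton.elim _ _⟩) with ⟨g1, q1, h⟩ | h | ⟨lam, p1, hlam1, h⟩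
  · -- one more vector
    exfalso
    obtain ⟨M', hM'⟩ : ∃ M' : Option (β ⊕ β) → S → L, (∀ r, M' none r =
      T c dg D θE x ({g1}, q1) (Sum.inr (Sum.inl r))) ∧ ∀ z, M' (some z) = M z :=
      ⟨fun z => match z with
        | none => fun r => T c dg D θE x ({g1}, q1) (Sum.inr (Sum.inl r))
        | some z => M z, fun _ => rfl, fun _ => rfl⟩
    have h1 : ∀ w ∈ kerW M', w ∈ kerW M ∧ Psi n Sb w (T c dg D θE x ({g1}, q1)) = 0 := by
      intro w hw
      refine ⟨fun z => ?_, ?_⟩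
      · have h2 := hw (some z)
        rw [hM'.2] at h2
        exact h2
      · have h2 := hw none
        simp only [hM'.1] at h2
        exact h2
    have h2 := point_rank (dg := dg) hθ (kerW M') (κ := x) (p0 := p0) (by
      intro w hw a G hG p
      obtain ⟨h3, h4⟩ := h1 w hw
      obtain ⟨z, hz⟩ := h (a, G) p
      have h5 := hmod _ _ _ _ _ hz w h3
      rw [h4, mul_zero, hPT w a G hG p] at h5
      exact sub_eq_zero.1 h5)
    have h3 := kerW_rank M'
    rw [Fintype.card_option, Fintype.card_sum] at h3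
    omega
  · exfalso
    have h2 := point_rank (dg := dg) hθ (kerW M) (κ := x) (p0 := p0) (by
      intro w hw a G hG p
      have h5 := hmod (a, G) (a, G) p p 0 (by rw [h, smul_zero]) w hw
      rw [zero_mul, hPT w a G hG p] at h5
      exact sub_eq_zero.1 h5)
    have h3 := kerW_rank M
    rw [Fintype.card_sum] at h3
    omega
  · have h1 : ∀ a G, Dg (G + Finsupp.single p0 1) (dg a) → ∀ p, ∃ y : β ⊕ β → L, ∀ r,
        (θ a (G + Finsupp.single p 1) r - x p * θ a (G + Finsupp.single p0 1) r) -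
        lam p * (θ a (G + Finsupp.single p1 1) r - x p1 * θ a (G + Finsupp.single p0 1) r) =
        ∑ z, y z * M z r := by
      intro a G hG p
      obtain ⟨y, hy⟩ := hVM _ (hmemV _ _ _ _ _ (h (a, G) p))
      refine ⟨y, fun r => ?_⟩
      rw [← hy r, Pi.sub_apply, Pi.smul_apply, smul_eq_mul, hTr a G hG, hTr a G hG]
    choose! Y hY using h1
    refine ⟨p1, lam, fun z => M ((Fintype.equivFin (β ⊕ β)).symm z),
      fun a G p z => Y a G p ((Fintype.equivFin (β ⊕ β)).symm z), fun a G hG p r => ?_⟩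
    rw [← hp0] at hG ⊢
    have h2 := hY a G hG p r
    rw [← (Fintype.equivFin (β ⊕ β)).symm.sum_comp] at h2
    rw [← h2, hθd]

end max

/-- The relations of an exceptional point. -/
theorem ExcAt.rel [Fintype S] {θ : A → (Vr n →₀ ℕ) → S → L} {dg : A → Unit → ℕ} {N : ℕ}
    {p0 : Vr n} {x : Vr n → L} (h : ExcAt θ dg N p0 x) :
    ∃ (p1 : Vr n) (lam : Vr n → L) (M : Fin N → S → L), ∀ w ∈ kerW M, ∀ a G,
      Dg (G + Finsupp.single p0 1) (dg a) → ∀ p, fw θ w a (G + Finsupp.single p 1) =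
        lam p * fw θ w a (G + Finsupp.single p1 1) +
          (x p - lam p * x p1) * fw θ w a (G + Finsupp.single p0 1) := by
  obtain ⟨p1, lam, M, Y, h⟩ := h
  refine ⟨p1, lam, M, fun w hw a G hG p => ?_⟩
  have h1 : ∑ r, ((θ a (G + Finsupp.single p 1) r - x p * θ a (G + Finsupp.single p0 1) r) -
      lam p * (θ a (G + Finsupp.single p1 1) r - x p1 * θ a (G + Finsupp.single p0 1) r)) * w r =
      0 := by
    have h2 : ∀ r, ((θ a (G + Finsupp.single p 1) r - x p * θ a (G + Finsupp.single p0 1) r) -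
      lam p * (θ a (G + Finsupp.single p1 1) r - x p1 * θ a (G + Finsupp.single p0 1) r)) * w r =
      ∑ z, Y a G p z * (M z r * w r) := by
      intro r
      rw [h a G hG p r, Finset.sum_mul]
      exact Finset.sum_congr rfl fun z _ => mul_assoc _ _ _
    rw [Finset.sum_congr rfl fun r _ => h2 r, Finset.sum_comm]
    refine Finset.sum_eq_zero fun z _ => ?_
    rw [← Finset.mul_sum, hw z, mul_zero]
  have h3 : ∑ r, ((θ a (G + Finsupp.single p 1) r - x p * θ a (G + Finsupp.single p0 1) r) -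
      lam p * (θ a (G + Finsupp.single p1 1) r - x p1 * θ a (G + Finsupp.single p0 1) r)) * w r =
      fw θ w a (G + Finsupp.single p 1) - x p * fw θ w a (G + Finsupp.single p0 1) -
      lam p * (fw θ w a (G + Finsupp.single p1 1) -
        x p1 * fw θ w a (G + Finsupp.single p0 1)) := by
    simp only [fw, Finset.mul_sum, ← Finset.sum_sub_distrib]
    exact Finset.sum_congr rfl fun r _ => by ring
  rw [h3] at h1
  linear_combination h1

/-- Exceptional points are on one line. -/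
theorem exc_line [Fintype S] [Fintype A] {θ : A → (Vr n →₀ ℕ) → S → L} {dg : A → Unit → ℕ}
    (hθ : ∀ w, (∀ a I, Dg I (dg a) → fw θ w a I = 0) → w = 0) {N' : ℕ} {p0' : Vr n}
    {x' : Vr n → L} (h' : ExcAt θ dg N' p0' x') :
    ∃ (p q : Vr n → L), ∀ (N : ℕ) (p0 : Vr n) (x : Vr n → L), ExcAt θ dg N p0 x →
      Fintype.card A + N + N' < Fintype.card S → ∃ u v : L, ∀ i, x i = u * p i + v * q i := by
  classical
  obtain ⟨p1', lam', M', h'⟩ := h'.rel
  obtain ⟨μ', hμ'⟩ : ∃ μ' : Vr n → L, ∀ p, μ' p = x' p - lam' p * x' p1' := ⟨_, fun _ => rfl⟩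
  simp only [← hμ'] at h'
  refine ⟨lam', μ', fun N p0 x h hs => ?_⟩
  obtain ⟨p1, lam, M, h⟩ := h.rel
  obtain ⟨μ, hμ⟩ : ∃ μ : Vr n → L, ∀ p, μ p = x p - lam p * x p1 := ⟨_, fun _ => rfl⟩
  simp only [← hμ] at h
  obtain ⟨M2, hM2⟩ : ∃ M2 : Fin N ⊕ Fin N' → S → L, M2 = Sum.elim M M' := ⟨_, rfl⟩
  have hk : ∀ w ∈ kerW M2, w ∈ kerW M ∧ w ∈ kerW M' := by
    intro w hw
    refine ⟨fun z => ?_, fun z => ?_⟩
    · have h2 := hw (Sum.inl z)
      rw [hM2] at h2
      exact h2
    · have h2 := hw (Sum.inr z)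
      rw [hM2] at h2
      exact h2
  have hr := kerW_rank M2
  rw [Fintype.card_sum, Fintype.card_fin, Fintype.card_fin] at hr
  have hDg : ∀ {a : A} {G : Vr n →₀ ℕ} (p q : Vr n), Dg (G + Finsupp.single p 1) (dg a) →
      Dg (G + Finsupp.single q 1) (dg a) := fun p q hG =>
    Dg.swap (p := p) (q := q) (Subsingleton.elim _ _) hG
  -- the difference of the relations
  have hdiff : ∀ p, (lam' p * lam p1' + μ' p * lam p0' - lam p = 0) ∧
      (lam' p * μ p1' + μ' p * μ p0' - μ p = 0) := by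
    intro p
    by_contra hcon
    obtain ⟨al, hal⟩ : ∃ al, al = lam' p * lam p1' + μ' p * lam p0' - lam p := ⟨_, rfl⟩
    obtain ⟨ga, hga⟩ : ∃ ga, ga = lam' p * μ p1' + μ' p * μ p0' - μ p := ⟨_, rfl⟩
    rw [← hal, ← hga] at hcon
    have hrel2 : ∀ w ∈ kerW M2, ∀ a G, Dg (G + Finsupp.single p0 1) (dg a) →
        al * fw θ w a (G + Finsupp.single p1 1) + ga * fw θ w a (G + Finsupp.single p0 1) = 0 := by
      intro w hw a G hG
      obtain ⟨h1, h2⟩ := hk w hw
      have e1 := h w h1 a G hG p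
      have e2 := h w h1 a G hG p1'
      have e3 := h w h1 a G hG p0'
      have e4 := h' w h2 a G (hDg p0 p0' hG) p
      rw [hal, hga]
      linear_combination e1 - e4 - lam' p * e2 - μ' p * e3
    by_cases hl : al = 0
    · have hg0 : ga ≠ 0 := fun h0 => hcon ⟨hl, h0⟩
      have h7 := point_rank (dg := dg) hθ (kerW M2) (κ := lam) (p0 := p1) (by
        intro w hw a G hG q
        have hG0 : Dg (G + Finsupp.single p0 1) (dg a) := hDg p1 p0 hG
        have h8 := hrel2 w hw a G hG0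
        rw [hl, zero_mul, zero_add] at h8
        have h9 := (mul_eq_zero.1 h8).resolve_left hg0
        rw [h w (hk w hw).1 a G hG0 q, h9, mul_zero, add_zero])
      omega
    · have h7 := point_rank (dg := dg) hθ (kerW M2)
        (κ := fun q => lam q * (- ga / al) + μ q) (p0 := p0) (by
        intro w hw a G hG q
        have h8 := hrel2 w hw a G hG
        have h9 : fw θ w a (G + Finsupp.single p1 1) =
            (- ga / al) * fw θ w a (G + Finsupp.single p0 1) := by
          field_simp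
          linear_combination h8
        rw [h w (hk w hw).1 a G hG q, h9]
        ring)
      omega
  refine ⟨x p1', x p0', fun i => ?_⟩
  obtain ⟨d1, d2⟩ := hdiff i
  have e1 : ∀ i, x i = lam i * x p1 + μ i := fun i => by rw [hμ]; ring
  rw [e1 i, e1 p1', e1 p0']
  linear_combination (- x p1) * d1 - d2

end Pool.Agent.Run7.h621.LA
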