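import Pool.Agent.Run7.h621.LA.Unique

/-!
The equivalence with the finiteness of the rational points.
-/

set_option autoImplicit false

namespace Pool.Agent.Run7.h621.LA

open MvPolynomial FF Pool.Agent.W603.LV Pool.Agent.W603.PV Pool.Agent.W602.GT Pool.Agent.TH145.MG
open LinearAlgebra.Projectivization
open Pool.Agent.Run7.h621.LG (ConditionsLE Small LineIn OnLineIn peqs NoLine AllGeneral
  CurvesBounded NoGroup equivalence_proj subvarieties onPair_univ eqs_univ bdry_univ lgt_empty)

variable {n : ℕ}

/-- The points with homogeneous coordinates in the field generated by the finite set `T` over the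
algebraic closure of `k` at which the forms in `E` vanish. -/
def pointsOver (k : Type) {K : Type} [Field k] [Field K] [Algebra k K]
    (E : Set (MvPolynomial (Fin (n + 1)) K)) (T : Finset K) : Set (ℙ K (Fin (n + 1) → K)) :=
  {P | ∃ (x : Fin (n + 1) → K) (hx : x ≠ 0), P = Projectivization.mk K x hx ∧
    (∀ i, x i ∈ IntermediateField.adjoin (algebraicClosure k K) (T : Set K)) ∧
    ∀ f ∈ E, aeval x f = 0}

/-- The points on the lines on which the forms in `E` vanish. -/
def onLines {K : Type} [Field K] (E : Set (MvPolynomial (Fin (n + 1)) K)) :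
    Set (ℙ K (Fin (n + 1) → K)) :=
  {P | ∃ (x : Fin (n + 1) → K) (hx : x ≠ 0), P = Projectivization.mk K x hx ∧ OnLineIn K E x}

variable {k K : Type} [Field k] [Field K] [IsAlgClosed K] [CharZero K] [Algebra k K]
  {m s q : ℕ} {V : Set (MvPolynomial (Fin (n + 1)) (algebraicClosure k K))}
  {A : Type} [Fintype A] {d : A → ℕ} {H : A → MvPolynomial (Fin (n + 1)) K}

/-- Finiteness of the points outside of the lines. -/
theorem points' (hVh : ∀ f ∈ V, ∃ e, f.IsHomogeneous e)
    (hV : DimLE (algebraicClosure k K) V m) (h : ConditionsLE k H d s) (hq : Small n d s q)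
    (hnum : 2 * m + s + 2 ≤ ∑ a, (d a + 1) + q) (T : Finset K) :
    (pointsOver k (peqs V H) T \ onLines (peqs V H)).Finite := by
  refine (points hVh hV h hq hnum T).subset ?_
  rintro P ⟨⟨x, hx, hP, hxT, hxE⟩, hl⟩
  exact ⟨x, hx, hP, hxT, hxE, fun hx2 => hl ⟨x, hx, hP, hx2⟩⟩

omit [IsAlgClosed K] in
/-- A line has infinitely many points over some finitely generated field. -/
theorem line_infinite {E : Set (MvPolynomial (Fin (n + 1)) K)} {p r : Fin (n + 1) → K}
    (hl : LineIn E p r) : ∃ T : Finset K, (pointsOver k E T ∩ onLines E).Infinite := by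
  classical
  refine ⟨Finset.univ.image p ∪ Finset.univ.image r, ?_⟩
  have hne : ∀ t : ℕ, (p + (t : K) • r) ≠ 0 := by
    intro t h0
    have h1 := (LinearIndependent.pair_iff.1 hl.1) 1 (t : K) (by rw [one_smul]; exact h0)
    exact one_ne_zero h1.1
  refine Set.infinite_of_injective_forall_mem (f := fun t : ℕ =>
    Projectivization.mk K (p + (t : K) • r) (hne t)) ?_ fun t => ⟨⟨_, hne t, rfl, fun i => ?_,
      fun f hf => ?_⟩, _, hne t, rfl, p, r, hl, 1, (t : K), fun i => ?_⟩
  · intro t t' h
    rw [Projectivization.mk_eq_mk_iff'] at h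
    obtain ⟨a, ha⟩ := h
    have h1 := (LinearIndependent.pair_iff.1 hl.1) (a - 1) (a * t' - t) (by
      have h2 : (a - 1) • p + (a * (t' : K) - t) • r = a • (p + (t' : K) • r) -
          (p + (t : K) • r) := by
        rw [smul_add, smul_smul, sub_smul, sub_smul, one_smul]
        abel
      rw [h2, ha, sub_self])
    have h3 : a = 1 := sub_eq_zero.1 h1.1
    have h4 := h1.2
    rw [h3, one_mul] at h4
    exact Nat.cast_injective (sub_eq_zero.1 h4).symm
  · have h1 : p i ∈ IntermediateField.adjoin (algebraicClosure k K)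
        ((Finset.univ.image p ∪ Finset.univ.image r : Finset K) : Set K) :=
      IntermediateField.subset_adjoin _ _ (Finset.mem_coe.2 (Finset.mem_union_left _
        (Finset.mem_image_of_mem _ (Finset.mem_univ i))))
    have h2 : r i ∈ IntermediateField.adjoin (algebraicClosure k K)
        ((Finset.univ.image p ∪ Finset.univ.image r : Finset K) : Set K) :=
      IntermediateField.subset_adjoin _ _ (Finset.mem_coe.2 (Finset.mem_union_right _
        (Finset.mem_image_of_mem _ (Finset.mem_univ i))))
    exact add_mem h1 (mul_mem (natCast_mem _ t) h2)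
  · have h1 := hl.2 f hf 1 (t : K)
    rw [aeval_eq_eval]
    have h2 : (p + (t : K) • r) = fun i => 1 * p i + (t : K) * r i := by
      funext i
      rw [Pi.add_apply, Pi.smul_apply, smul_eq_mul, one_mul]
    rw [h2]
    exact h1
  · rw [Pi.add_apply, Pi.smul_apply, smul_eq_mul, one_mul, Algebra.algebraMap_self,
      RingHom.id_apply, RingHom.id_apply]

/-- The points are finite in number over all finitely generated fields if and only if there is no
line. -/
theorem finite_iff (hVh : ∀ f ∈ V, ∃ e, f.IsHomogeneous e)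
    (hV : DimLE (algebraicClosure k K) V m) (h : ConditionsLE k H d s) (hq : Small n d s q)
    (hnum : 2 * m + s + 2 ≤ ∑ a, (d a + 1) + q) :
    (∀ T : Finset K, (pointsOver k (peqs V H) T).Finite) ↔ NoLine (peqs V H) := by
  constructor
  · intro hT p r hl
    obtain ⟨T, hT2⟩ := line_infinite (k := k) hl
    exact hT2 ((hT T).subset Set.inter_subset_left)
  · intro hno T
    refine (points' hVh hV h hq hnum T).subset ?_
    intro P hP
    refine ⟨hP, ?_⟩
    rintro ⟨x, hx, -, p, r, hl, -⟩
    exact hno p r hl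

/-- Closed subvarieties. -/
theorem sub' (hVh : ∀ f ∈ V, ∃ e, f.IsHomogeneous e)
    (hV : DimLE (algebraicClosure k K) V m) (h : ConditionsLE k H d s) (hq : Small n d s q)
    (hnum : 2 * m + s + 2 ≤ ∑ a, (d a + 1) + q) {L : Type} [Field L] [Algebra K L] {w : ℕ}
    {x : Fin (n + 1) → L} (hw : 0 < w) (htr : Algebra.trdeg K L = w) (hx0 : x ≠ 0)
    (hxL : Algebra.IsAlgebraic (coords K x) L) (hx : ∀ f ∈ peqs V H, aeval x f = 0) :
    OnLineIn K (peqs V H) x ∨ GeneralType K L w := by
  classical
  have hsum : ∑ a, (d a + 1) = ∑ a, d a + (Finset.univ : Finset A).card := by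
    rw [Finset.sum_add_distrib, Finset.sum_const, smul_eq_mul, mul_one]
  have h1 := subvarieties hVh hV h hq Finset.univ hw htr hx0 hxL ((onPair_univ x).2 hx)
    (by omega)
  rw [eqs_univ, bdry_univ] at h1
  exact h1.imp id fun h2 => lgt_empty w h2

/-- The equivalence. -/
theorem equivalence_ar (hVh : ∀ f ∈ V, ∃ e, f.IsHomogeneous e)
    (hV : DimLE (algebraicClosure k K) V m) (h : ConditionsLE k H d s) (hq : Small n d s q)
    (hnum : 2 * m + s + 2 ≤ ∑ a, (d a + 1) + q) {c : ℤ}
    (hc : c = (∑ a, ((d a : ℤ) + 1)) + q - 2 * m - s) :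
    [NoLine (peqs V H), ∀ T : Finset K, (pointsOver k (peqs V H) T).Finite,
      AllGeneral (peqs V H), CurvesBounded (peqs V H) c, NoGroup (peqs V H)].TFAE := by
  obtain ⟨e1, e2, e3, -⟩ := equivalence_proj hVh hV h hq (by omega) hc
  tfae_have 1 ↔ 2 := (finite_iff hVh hV h hq hnum).symm
  tfae_have 1 ↔ 3 := e1
  tfae_have 1 ↔ 4 := e2
  tfae_have 1 ↔ 5 := e3
  tfae_finish

end Pool.Agent.Run7.h621.LA
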