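import Pool.Agent.Run7.h621.LA.Data
import Pool.Agent.Run7.h621.LG.Core
import Pool.Agent.Run7.h621.MP.Arith

/-!
The height inequality over function fields for the points that are not exceptional.
-/

set_option autoImplicit false
set_option linter.unusedSectionVars false

open MvPolynomial FF Pool.Agent.W603.LV Pool.Agent.W603.PV Pool.Agent.TH145.GH
open Pool.Agent.W602.GT Pool.Agent.TH145.MG
open Pool.Agent.Run7.h621.NG (Bt cj Dr Dr_apply θr dt dt_ne_zero)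
open Pool.Agent.Run7.h621.FV (cd)
open Pool.Agent.Run7.h621.MP (Vr sM cor sM_zero sM_top mon mon_add mon_zero mon_sum mon_single
  mon_sM mon_cor mon_step Rd R Eu cS sc sT Rd_scale Eu_scale dt_trans ph Norm exists_norm ph_nonneg
  ge_ph wt blk blk_card kE tE eE qE sum_qE Ph_u Ph_E Ph Ph_apply Ph_Eu Ph_Rd eval_monomial' IsMulti
  mcoords MTan mtan_rank mtan_block trdeg_chart eval_sc logder NF NF_multi Qr Sys sys_iff MDimLE
  PrDimLE)
open Pool.Agent.Run7.h621.LG (Dg Dual Ph_R pick base Pairs Spans row num ordF Rel Ti fw)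

namespace Pool.Agent.Run7.h621.LA

section pick

variable {n : Unit → ℕ} {L : Type} [Field L] {A S X : Type} [DecidableEq A]
  {C : Finset A} {F : A → MvPolynomial (Vr n) L} {x : Vr n → L} {dg : A → Unit → ℕ}
  {D : A → (Vr n →₀ ℕ) → Derivation ℤ L L} {θ : A → (Vr n →₀ ℕ) → S → L}
  {ε : A → (Vr n →₀ ℕ) → L} {Q : S → A → MvPolynomial (Vr n) L} {E : X → Derivation ℤ L L}
  {c : ∀ i, Fin (n i + 1)}

/-- The choice of the rows. -/
theorem pickE [Fintype A] [Fintype S] [DecidableEq S] [Fintype X]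
    {k0 : Type} [Field k0] [Algebra k0 L] [CharZero L]
    (hF : ∀ a, IsMulti (F a) (dg a)) (hD : Dual F dg D θ ε Q)
    (hDk : ∀ a I (r : k0), D a I (algebraMap k0 L r) = 0)
    (hEk : ∀ ξ (r : k0), E ξ (algebraMap k0 L r) = 0) (hE : ∀ ξ b, cd (E ξ) (F b) = 0)
    (hc : ∀ i, x ⟨i, c i⟩ = 1) (hC : ∀ a ∈ C, eval x (F a) = 0)
    (hB : ∀ a, a ∉ C → eval x (F a) ≠ 0)
    (hX : LinearIndependent L (fun (ξ : X) (p : Vr n) => E ξ (x p))) {m : ℕ} {mi : Unit → ℕ}
    (htr : Algebra.trdeg k0 (mcoords k0 x) ≤ m)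
    (htri : ∀ i, Algebra.trdeg k0 (coords k0 fun j => x ⟨i, j⟩) ≤ mi i)
    (hθ : ∀ w : S → L, (∀ a I, Dg I (dg a) → ∑ r, θ a I r * w r = 0) → w = 0) {q0 : ℕ}
    (hq0 : q0 = 0 ∨ Fintype.card A + 2 * q0 ≤ Fintype.card S) :
    (∃ N, N + 2 ≤ 2 * q0 ∧ ExcAt θ dg N ⟨(), c ()⟩ x) ∨
    ∃ (τ : Type) (_ : Fintype τ) (υ : Type) (_ : Fintype υ) (t : τ → Ti A n)
      (u : υ → Vr n ⊕ (S ⊕ {b : A // b ∉ C}))
      (_ : Vr n ⊕ (S ⊕ {b : A // b ∉ C}) ≃ (Unit ⊕ (X ⊕ τ)) ⊕ (A ⊕ υ))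
      (β : Type) (_ : Fintype β) (p : β ⊕ β → τ),
      Fintype.card β = q0 ∧ Pairs t p ∧
      Spans c dg D (tE C F x D θ ε) (kE C S L dg) E (eE C F x S E) t x ∧
      LinearIndependent L (row c dg D (tE C F x D θ ε) (kE C S L dg) E (eE C F x S E) t
        (fun a => cor c (dg a)) (fun y => Pi.single (u y) 1) x) ∧
      Fintype.card X + Fintype.card τ + C.card ≤ m + Fintype.card S ∧
      ∀ h : Unit → ℤ, (∀ i, 0 ≤ h i) →
        ∑ p : Vr n, h p.1 ≤ ∑ y, wt h (u y) + ∑ i, ((mi i : ℤ) + 1) * h i := by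
  rcases pick (D := D) (θ := tE C F x D θ ε)
    (κ := kE C S L dg) (E := E) (η := eE C F x S E) (dg := dg) hc (Ph F (qE C F x Q) x)
    (Ph_u hF hC) (Ph_E hC hB hE) (Ph_R hD hC hB) hX (N := MTan k0 x) (m := m) (mi := mi)
    (mtan_rank hc (trdeg_chart hc htr)) (fun i => mtan_block hc (htri i))
    (fun i => ⟨fun i' => if i' = i then 1 else 0, 0, fun _ => rfl, fun p => by
      rw [Derivation.zero_apply, add_zero]
      change (if p.1 = i then x p else 0) = (if p.1 = i then 1 else 0) * x p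
      split_ifs
      · rw [one_mul]
      · rw [zero_mul]⟩)
    (fun a I => ⟨0, D a I, hDk a I, fun p => by rw [Pi.zero_apply, zero_mul, zero_add]⟩)
    (fun ξ => ⟨0, E ξ, hEk ξ, fun p => by rw [Pi.zero_apply, zero_mul, zero_add]⟩) q0 with
    ⟨β, i0, t, hβ, hm⟩ | ⟨τ, i1, υ, i2, t, u, e, β, i0, p, hβ, hp, h1, h2, h3, h4⟩
  · left
    have h5 := exc_of_max (v0 := base (kE C S L dg) E (eE C F x S E) x)
      (θE := tE C F x D θ ε) (dg := dg) hc (by
        rintro (i | ξ) r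
        · rfl
        · rfl) (fun w hw => hθ w fun a I hI => hw a I hI) hm (by omega)
    refine ⟨_, ?_, h5⟩
    rw [Fintype.card_sum]
    omega
  right
  refine ⟨τ, i1, υ, i2, t, u, e, β, i0, p, hβ, hp, h1, h2, ?_, h4⟩
  rw [Fintype.card_sum, Fintype.card_subtype_compl, Fintype.card_coe] at h3
  have h5 : C.card ≤ Fintype.card A := Finset.card_le_univ C
  omega

end pick

/-- The height inequality. -/
theorem hgt_alt {k0 κ Λ A S : Type} [Field k0] [Field κ] [Field Λ] [Algebra κ Λ] [Algebra k0 Λ]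
    [IsAlgClosed κ] [CharZero κ] [IsFF κ Λ] [Fintype A] [DecidableEq A] [Fintype S] [DecidableEq S]
    {n : Unit → ℕ}
    {c : ∀ i, Fin (n i + 1)} {F : A → MvPolynomial (Vr n) Λ} {dg : A → Unit → ℕ}
    {D : A → (Vr n →₀ ℕ) → Derivation ℤ Λ Λ}
    {θ : A → (Vr n →₀ ℕ) → S → Λ} {ε : A → (Vr n →₀ ℕ) → Λ}
    {Q : S → A → MvPolynomial (Vr n) Λ} (hFh : ∀ a, IsMulti (F a) (dg a))
    (hD : Dual F dg D θ ε Q)
    (hDk : ∀ a I (r : k0), D a I (algebraMap k0 Λ r) = 0) {e : Place κ Λ → ℤ} (he : ∀ P, 0 ≤ e P)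
    (hef : {P | e P ≠ 0}.Finite)
    (hloss : ∀ P f, Ge P 0 f → ∀ a I, Dg I (dg a) → Ge P (-e P) (D a I f))
    (hθe : ∀ P a I, Dg I (dg a) → ∀ r, Ge P (-e P) (θ a I r))
    (hε : ∀ (P : Place κ Λ) a I, Ge P 0 (ε a I))
    {x : Vr n → Λ} (hx : ∀ i, x ⟨i, c i⟩ = 1) (hF : ∀ a, eval x (F a) = 0)
    {m : ℕ} {mi : Unit → ℕ} (htr : Algebra.trdeg k0 (mcoords k0 x) ≤ m)
    (htri : ∀ i, Algebra.trdeg k0 (coords k0 fun j => x ⟨i, j⟩) ≤ mi i)
    (hθ : ∀ w : S → Λ, (∀ a I, Dg I (dg a) → ∑ r, θ a I r * w r = 0) → w = 0) {q0 : ℕ}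
    (hq0 : q0 = 0 ∨ Fintype.card A + 2 * q0 ≤ Fintype.card S)
    (hnum : m + mi () + Fintype.card S + 2 ≤ ∑ a, dg a () + Fintype.card A + q0) :
    (∃ N, N + 2 ≤ 2 * q0 ∧ ExcAt θ dg N ⟨(), c ()⟩ x) ∨
      ∀ p, hgt κ (x p) ≤ (m + Fintype.card S : ℕ) * ∑ᶠ P, e P := by
  classical
  have hc : CharZero Λ := charZero_of_injective_algebraMap (algebraMap κ Λ).injective
  rcases pickE (k0 := k0) (m := m) (mi := mi)
    (C := Finset.univ) (X := Empty) hFh hD hDk
    (E := fun x => x.elim) (fun x => x.elim) (fun x => x.elim) hx (fun a _ => hF a)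
    (fun a ha => absurd (Finset.mem_univ a) ha) linearIndependent_empty_type htr htri hθ hq0 with
    h | ⟨τ, i1, υ, i2, t, u, b, β, i0, p', hβ, hp', hsp, hli, hcard, hu⟩
  · exact Or.inl h
  right
  intro p
  obtain ⟨Θ, hΘ⟩ : ∃ Θ, Θ = dt b (row c dg D (tE Finset.univ F x D θ ε) (kE Finset.univ S Λ dg)
    (fun x : Empty => x.elim) (eE Finset.univ F x S fun x : Empty => x.elim) t
      (fun a => cor c (dg a)) (fun y => Pi.single (u y) 1) x) := ⟨_, rfl⟩
  have hΘ0 : Θ ≠ 0 := by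
    rw [hΘ]
    exact dt_ne_zero b hli
  have h1 : ∀ P : Place κ Λ, num Finset.univ dg mi 0 m (Fintype.card S) q0 * ph P x () -
      ((Fintype.card τ : ℤ) + Fintype.card A) * e P ≤ P.ord Θ := by
    intro P
    rw [hΘ]
    have h2 := ordF (C := Finset.univ) (F := F) (x := x) (dg := dg) (D := D) (θ := θ) (ε := ε)
      (E := fun x : Empty => x.elim) (c := c) P hFh b hx
      (fun a ha => absurd (Finset.mem_univ a) ha) hsp u hp' (he P)
      (fun f hf a I hI => hloss P f hf a I hI) (fun a I hI r => hθe P a I hI r)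
      (hε P) (fun _ _ x => x.elim) (fun _ _ _ b hb => absurd (Finset.mem_univ b) hb)
      (fun _ _ _ b hb => absurd (Finset.mem_univ b) hb) hcard le_rfl hu (by
        rw [← hΘ]
        exact hΘ0)
    rwa [Fintype.card_empty, hβ] at h2
  have hcoef : 1 ≤ num Finset.univ dg mi 0 m (Fintype.card S) q0 := by
    unfold num
    rw [Finset.card_univ]
    zify at hnum
    push_cast
    linarith
  have h0 : ∀ P : Place κ Λ, 0 ≤ ph P x () := fun P => ph_nonneg P hx ()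
  have h3 : ∀ P : Place κ Λ, ph P x () - ((Fintype.card τ : ℤ) + Fintype.card A) * e P ≤
      P.ord Θ := by
    intro P
    have h6 := mul_le_mul_of_nonneg_right hcoef (h0 P)
    have := h1 P
    linarith
  obtain ⟨T1, hT1⟩ := exists_supp (k := κ) (Finset.univ : Finset (Fin 2)) ![x p, Θ]
  obtain ⟨T, hT⟩ : ∃ T, T = T1 ∪ hef.toFinset := ⟨_, rfl⟩
  have hs1 : ∑ P ∈ T, P.ord Θ = 0 := sum_ord_finset _ _ fun P hP => by
    rw [hT]
    exact Finset.mem_union_left _ (hT1 1 (Finset.mem_univ _) P hP)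
  have hs2 : hgt κ (x p) = ∑ P ∈ T, max (-P.ord (x p)) 0 := hgt_finset _ _ fun P hP => by
    rw [hT]
    exact Finset.mem_union_left _ (hT1 0 (Finset.mem_univ _) P hP)
  have hs3 : ∑ᶠ P, e P = ∑ P ∈ T, e P := by
    rw [finsum_eq_sum_of_support_subset (s := T)]
    intro P hP
    rw [hT]
    exact Finset.mem_union_right _ (hef.mem_toFinset.2 hP)
  have hs4 : ∑ P ∈ T, max (-P.ord (x p)) 0 ≤ ∑ P ∈ T, ph P x () := by
    refine Finset.sum_le_sum fun P _ => max_le ?_ (h0 P)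
    rcases ge_ph P x p with h2 | h2
    · rw [h2, P.ord_zero]
      simpa using h0 P
    · have h4 : ph P x p.1 = ph P x () := rfl
      rw [h4] at h2
      linarith
  have hs5 := Finset.sum_le_sum (s := T) fun P _ => h3 P
  rw [Finset.sum_sub_distrib, ← Finset.mul_sum, hs1, ← hs3] at hs5
  have hE : 0 ≤ ∑ᶠ P, e P := by
    rw [hs3]
    exact Finset.sum_nonneg fun P _ => he P
  have hc2 : (Fintype.card τ : ℤ) + (Fintype.card A : ℤ) ≤ (m + Fintype.card S : ℕ) := by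
    rw [Fintype.card_empty, zero_add, Finset.card_univ] at hcard
    zify at hcard ⊢
    linarith
  rw [hs2]
  refine hs4.trans ?_
  have hs7 := mul_le_mul_of_nonneg_right hc2 hE
  linarith

section sys

variable {k0 A : Type} [Field k0] {n : Unit → ℕ} {J : A → Type}
  [∀ a, Fintype (J a)] {P : ∀ a, J a → MvPolynomial (Vr n) k0} {j0 : ∀ a, J a}

/-- The height inequality for the solutions. -/
theorem sys_alt [Fintype A] [DecidableEq A] {dg : A → Unit → ℕ}
    (hP : ∀ a j, IsMulti (P a j) (dg a))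
    {V : Set (MvPolynomial (Vr n) k0)} {m s : ℕ} {mi : Unit → ℕ} (hV : MDimLE k0 V m)
    (hVi : ∀ i, PrDimLE k0 V i (mi i)) {c0 : ∀ i, Fin (n i + 1)}
    {jj : ∀ a, (Vr n →₀ ℕ) → J a} (hjj : ∀ a I, Dg I (dg a) → P a (jj a I) = monomial I 1)
    (hmo : ∀ a j, ∃ I, Dg I (dg a) ∧ jj a I = j)
    {B : Set (Bt j0)} (hB : Nat.card {b : Bt j0 // b ∉ B} ≤ s) {q0 : ℕ}
    (hq0 : q0 = 0 ∨ Fintype.card A + 2 * q0 ≤ Nat.card {b : Bt j0 // b ∉ B})
    (hnum : m + mi () + s + 2 ≤ ∑ a, dg a () + Fintype.card A + q0) :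
    HtAlt k0 B (Sys P j0 V c0) (2 * (m + s)) (ExP jj dg q0 ⟨(), c0 ()⟩ B) := by
  classical
  intro κ Λ _ _ _ _ _ _ _ c δ e x hk hδ he hef hloss hpole hδc hx
  have := Fintype.ofFinite B
  have := Fintype.ofFinite {b : Bt j0 // b ∉ B}
  obtain ⟨hxV, hx1, hF⟩ := (sys_iff x c).1 hx
  have hx0 : ∀ i, ∃ j, x ⟨i, j⟩ ≠ 0 := fun i => ⟨c0 i, by rw [hx1]; exact one_ne_zero⟩
  obtain ⟨hρ, ε, hε, hD⟩ := data (P := P) δ hk c (fun b b' => by
    by_cases h : b = b'
    · exact Or.inl ⟨h, by rw [hδ, if_pos h]⟩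
    · exact Or.inr ⟨h, by rw [hδ, if_neg h]⟩)
    (G := fun a => {I | Dg I (dg a)}) (jI := jj) (fun a I hI => hjj a I hI)
  have hρe : ∀ Q a I q, Ge Q (-e Q) (rho jj c a I q) := by
    intro Q a I q
    have h3 := he Q
    rcases hρ a I q with h | h | h
    · rw [h]; exact Ge.zero
    · rw [h]; exact Ge.one.mono (by omega)
    · rw [h]; exact (hpole Q q).neg
  rw [Nat.card_eq_fintype_card] at hB hq0
  have h1 := hgt_alt (k0 := k0) (κ := κ) (m := m) (mi := mi) (e := fun Q => 2 * e Q)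
    (c := c0) (F := NF P j0 c) (x := x) (dg := dg) (q0 := q0)
    (D := fun a I => Dr δ (rho jj c a I)) (θ := fun a I => θr δ c (rho jj c a I)) (ε := ε)
    (Q := Qr P Λ B)
    (NF_multi hP c) (fun a b I hI => hD a b I hI) (fun a I r => by
      rw [Dr_apply]
      exact Finset.sum_eq_zero fun b _ => by rw [hk, mul_zero]) (fun Q => by
      have := he Q
      omega) (by
      refine hef.subset fun Q hQ => ?_
      intro h
      apply hQ
      rw [h, mul_zero]) (fun Q f hf a I _ => by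
      rw [Dr_apply]
      refine Ge.sum _ _ fun b _ => ?_
      exact ((hρe Q a _ b).mul (hloss Q f hf b)).mono (by omega)) (fun Q a I _ r => by
      have h3 := he Q
      refine Ge.sub ?_ ((hρe Q a _ r).mono (by omega))
      refine Ge.sum _ _ fun b _ => ?_
      exact ((hρe Q a _ b).mul (hδc Q b r)).mono (by omega)) (fun Q a I => by
      rcases hε a I with h | h
      · rw [h]; exact Ge.zero
      · rw [h]; exact Ge.one) hx1 hF (hV Λ x hx0 hxV) (fun i => hVi i Λ x hx0 hxV)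
    (fun w hw => th_nondeg c (fun b q => δ b (c q)) (G := fun a => {I | Dg I (dg a)}) (jI := jj)
      (fun a j => hmo a j) w fun a I hI => by
        simp only [th_eq]
        exact hw a I hI) hq0 (by omega)
  have hth : (fun a I => θr δ c (rho jj c a I)) = th jj c (fun b q => δ b (c q)) := by
    funext a I r
    rw [th_eq]
  rw [hth] at h1
  refine h1.imp id fun h1 p => ?_
  have h1 := h1 p
  have h2 : ∑ᶠ P, 2 * e P = 2 * ∑ᶠ P, e P := by
    rw [mul_finsum]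
  rw [h2] at h1
  have hE : 0 ≤ ∑ᶠ P, e P := finsum_nonneg he
  refine h1.trans ?_
  have h3 : ((m + Fintype.card {b : Bt j0 // b ∉ B} : ℕ) : ℤ) ≤ (m + s : ℕ) := by
    exact_mod_cast Nat.add_le_add_left hB m
  have h4 := mul_le_mul_of_nonneg_right h3 (by linarith : 0 ≤ 2 * ∑ᶠ P, e P)
  refine h4.trans (le_of_eq ?_)
  push_cast
  ring

end sys

end Pool.Agent.Run7.h621.LA
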