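import Pool.Agent.Run7.h621.LG.LogFinal
import Pool.Agent.Run7.h621.LA.Ineq

/-!
The forms on subvarieties of logarithmic pairs that are not exceptional.
-/

set_option autoImplicit false
set_option linter.unusedSectionVars false

open MvPolynomial FF Pool.Agent.W603.LV Pool.Agent.W603.PV Pool.Agent.TH145.GH
open Pool.Agent.W602.GT Pool.Agent.TH145.GF Pool.Agent.TH145.MG
open Pool.Agent.Run7.h621.FV (cd coeff_cd exists_tb)
open Pool.Agent.Run7.h621.NG (Bt cj Dr Dr_apply θr dt dt_ne_zero)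
open Pool.Agent.Run7.h621.MP (Vr sM cor sM_zero sM_top mon mon_add mon_zero mon_sum mon_single
  mon_sM mon_cor mon_step Rd R Eu cS sc sT Rd_scale Eu_scale dt_trans ph Norm exists_norm ph_nonneg
  ge_ph wt blk blk_card kE tE eE qE sum_qE Ph_u Ph_E Ph Ph_apply Ph_Eu Ph_Rd eval_monomial' IsMulti
  mcoords MTan mtan_rank mtan_block trdeg_chart eval_sc logder NF NF_multi map_NF ph_const Qr
  eval_mon MDimLE PrDimLE form_eq aeval_sc)
open Pool.Agent.Run7.h621.LG (Dg Dual Ph_R pick base Pairs Spans row num ordF Rel Ti fw dt_change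
  spans_change)

namespace Pool.Agent.Run7.h621.LA

variable {k0 A : Type} [Field k0] {n : Unit → ℕ} {J : A → Type}
  [∀ a, Fintype (J a)] {P : ∀ a, J a → MvPolynomial (Vr n) k0} {j0 : ∀ a, J a}

/-- The forms on a subvariety. -/
theorem core_formsE {K L : Type} [Field K] [Field L] [Algebra k0 K] [Algebra K L] [Algebra k0 L]
    [IsScalarTower k0 K L] [IsAlgClosed K] [CharZero K] [Fintype A] [DecidableEq A]
    {dg : A → Unit → ℕ} (hP : ∀ a j, IsMulti (P a j) (dg a)) (C : Finset A) {m s w : ℕ} {mi : Unit → ℕ}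
    {c0 : ∀ i, Fin (n i + 1)} {jj : ∀ a, (Vr n →₀ ℕ) → J a}
    (hjj : ∀ a I, Dg I (dg a) → P a (jj a I) = monomial I 1)
    (hmo : ∀ a j, ∃ I, Dg I (dg a) ∧ jj a I = j) (hw : 0 < w)
    {c : Bt j0 → K} {B : Set (Bt j0)} (hB : Nat.card {b : Bt j0 // b ∉ B} ≤ s)
    {q0 : ℕ} (hq0 : q0 = 0 ∨ Fintype.card A + 2 * q0 ≤ Nat.card {b : Bt j0 // b ∉ B})
    (δ : B → Derivation k0 L L) (hδS : ∀ b, Sem K ((δ b).restrictScalars ℤ))
    (hδ : ∀ b b' : B, (b = b' ∧ δ b (algebraMap K L (c b')) = 1) ∨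
      (b ≠ b' ∧ δ b (algebraMap K L (c b')) = 0)) (htr : Algebra.trdeg K L = w)
    {x : Vr n → L} (hx : ∀ i, x ⟨i, c0 i⟩ = 1)
    (hgen : Algebra.IsAlgebraic (IntermediateField.adjoin K (Set.range x)) L)
    (hm : Algebra.trdeg k0 (mcoords k0 x) ≤ m)
    (hmi : ∀ i, Algebra.trdeg k0 (coords k0 fun j => x ⟨i, j⟩) ≤ mi i)
    {F : A → MvPolynomial (Vr n) L} (hF : ∀ a, F a = map (algebraMap K L) (NF P j0 c a))
    (hC : ∀ a ∈ C, eval x (F a) = 0) (hBd : ∀ a, a ∉ C → eval x (F a) ≠ 0) :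
    ExP jj dg q0 ⟨(), c0 ()⟩ B L (fun b => algebraMap K L (c b))
      (fun b r => δ b (algebraMap K L (c r))) x ∨
    ∃ (Δ : (Fin w → Derivation K L L) → L) (l : Fin w → Vr n) (E : Fin w → Derivation K L L),
      IsTranscendenceBasis K (fun i => x (l i)) ∧ Δ E ≠ 0 ∧
      (∀ (B : Matrix (Fin w) (Fin w) L) (D1 D2 : Fin w → Derivation K L L),
        (∀ i f, D1 i f = ∑ j, B i j * D2 j f) → Δ D1 = B.det * Δ D2) ∧
      ∀ Q : Place K L, Divisorial w Q → ∀ Dd : Fin w → Derivation K L L,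
        ((∀ i, DerLog Q (Dd i)) ∨ ((∀ i, DerReg Q (Dd i)) ∧ ∀ b, b ∉ C →
          ¬ ∑ i, (dg b i : ℤ) * pord Q (fun j => x ⟨i, j⟩) < Q.ord (eval x (F b)))) →
        Ge Q (num C dg mi w m s q0 * ph Q x ()) (Δ Dd) := by
  classical
  have hL : CharZero L := charZero_of_injective_algebraMap (algebraMap K L).injective
  have := Fintype.ofFinite B
  have := Fintype.ofFinite {b : Bt j0 // b ∉ B}
  obtain ⟨l, hl⟩ := exists_tb htr hgen
  obtain ⟨t, ht⟩ : ∃ t : Fin w → L, ∀ i, t i = x (l i) := ⟨_, fun _ => rfl⟩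
  have htb : IsTranscendenceBasis K t := by
    have : t = fun i => x (l i) := funext ht
    rw [this]
    exact hl
  -- the vertical derivations
  obtain ⟨E, hE⟩ : ∃ E : Fin w → Derivation K L L, ∀ i j, E i (t j) = if i = j then 1 else 0 := by
    obtain ⟨E, hE⟩ := exists_dual htb
    refine ⟨E, fun i j => ?_⟩
    have := congrFun (congrFun hE i) j
    rw [Matrix.of_apply, Matrix.one_apply] at this
    rw [this]
  have hδk : ∀ b (r : k0), δ b (algebraMap k0 L r) = 0 := fun b r => (δ b).map_algebraMap r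
  obtain ⟨hρ, ε, hε, hD⟩ := data (P := P) (fun b => (δ b).restrictScalars ℤ)
    hδk (fun b => algebraMap K L (c b)) (fun b b' => hδ b b')
    (G := fun a => {I | Dg I (dg a)}) (jI := jj) (fun a I hI => hjj a I hI)
  obtain ⟨ρ, hρd⟩ : ∃ ρ : A → (Vr n →₀ ℕ) → Bt j0 → L, ρ = fun a I =>
    rho jj (fun b => algebraMap K L (c b)) a I := ⟨_, rfl⟩
  have hρ : ∀ a I q, ρ a I q = 0 ∨ ρ a I q = 1 ∨ ρ a I q = - algebraMap K L (c q) := by
    rw [hρd]
    exact hρ
  have hD : ∀ a b, ∀ I ∈ {I | Dg I (dg a)}, cd (Dr (fun b => (δ b).restrictScalars ℤ) (ρ a I))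
      (NF P j0 (fun b => algebraMap K L (c b)) b) = (if a = b then monomial I 1 - ε a I •
        NF P j0 (fun b => algebraMap K L (c b)) b else 0) +
          ∑ r, θr (fun b => (δ b).restrictScalars ℤ) (fun b => algebraMap K L (c b)) (ρ a I) r •
            Qr P L B r b := by
    rw [hρd]
    exact hD
  obtain ⟨D, hDd⟩ : ∃ D : A → (Vr n →₀ ℕ) → Derivation ℤ L L, D = fun a I =>
    Dr (fun b => (δ b).restrictScalars ℤ) (ρ a I) := ⟨_, rfl⟩
  obtain ⟨θ, hθd⟩ : ∃ θ : A → (Vr n →₀ ℕ) → {b : Bt j0 // b ∉ B} → L, θ = fun a I =>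
    θr (fun b => (δ b).restrictScalars ℤ) (fun b => algebraMap K L (c b)) (ρ a I) := ⟨_, rfl⟩
  have hFN : ∀ a, F a = NF P j0 (fun b => algebraMap K L (c b)) a := fun a => by
    rw [hF, map_NF]
  have hdual : Dual F dg D θ ε (Qr P L B) := by
    intro a b I hI
    rw [hFN, hDd, hθd]
    exact hD a b I hI
  have hθt : θ = th jj (fun b => algebraMap K L (c b)) (fun b r => δ b (algebraMap K L (c r))) := by
    funext a I r
    rw [hθd, hρd]
    exact (th_eq jj (fun b => algebraMap K L (c b)) (fun b => (δ b).restrictScalars ℤ) a I r).symm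
  have hnd' : ∀ w : {b : Bt j0 // b ∉ B} → L,
      (∀ a I, Dg I (dg a) → ∑ r, θ a I r * w r = 0) → w = 0 := by
    intro w hw
    refine th_nondeg (fun b => algebraMap K L (c b)) (fun b r => δ b (algebraMap K L (c r)))
      (G := fun a => {I | Dg I (dg a)}) (jI := jj) (fun a j => hmo a j) w fun a I hI => ?_
    rw [← hθt]
    exact hw a I hI
  have hFm : ∀ a, IsMulti (F a) (dg a) := fun a => by
    rw [hFN]
    exact NF_multi hP _ a
  have hDf : ∀ a I f, D a I f = ∑ b : B, ρ a I b * δ b f := fun a I f => by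
    rw [hDd]
    exact Dr_apply _ _ _
  have hρK : ∀ a I q, ∃ z : K, ρ a I q = algebraMap K L z := fun a I q => by
    rcases hρ a I q with h | h | h
    · exact ⟨0, by rw [h, map_zero]⟩
    · exact ⟨1, by rw [h, map_one]⟩
    · exact ⟨-c q, by rw [h, map_neg]⟩
  have hDk : ∀ a I (r : k0), D a I (algebraMap k0 L r) = 0 := by
    intro a I r
    rw [hDf]
    exact Finset.sum_eq_zero fun b _ => by rw [hδk, mul_zero]
  have hDS' : ∀ a I (r : K), ∃ z : K, D a I (algebraMap K L r) = algebraMap K L z := by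
    intro a I r
    have h2 : ∀ b, ∃ z : K, δ b (algebraMap K L r) = algebraMap K L z := fun b => hδS b r
    choose z1 hz1 using hρK a I
    choose z2 hz2 using h2
    refine ⟨∑ b : B, z1 b * z2 b, ?_⟩
    rw [hDf, map_sum]
    exact Finset.sum_congr rfl fun b _ => by rw [hz1, hz2, map_mul]
  have hDS : ∀ a I, Sem K (D a I) := fun a I r => hDS' a I r
  have hθK : ∀ a I r, ∃ z : K, θ a I r = algebraMap K L z := by
    intro a I r
    have h2 : ∀ b, ∃ z : K, δ b (algebraMap K L (c r)) = algebraMap K L z := fun b => hδS b (c r)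
    choose z1 hz1 using hρK a I
    choose z2 hz2 using h2
    refine ⟨∑ b : B, z1 b * z2 b - z1 r, ?_⟩
    rw [hθd, map_sub, map_sum, ← hz1 r]
    change ∑ b : B, ρ a I b * δ b (algebraMap K L (c r)) - ρ a I r = _
    congr 1
    exact Finset.sum_congr rfl fun b _ => by rw [hz1, hz2, map_mul]
  have hX : LinearIndependent L (fun (ξ : Fin w) (p : Vr n) =>
      (E ξ).restrictScalars ℤ (x p)) := by
    rw [Fintype.linearIndependent_iff]
    intro g hg j
    have h4 := congrFun hg (l j)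
    rw [Finset.sum_apply, Finset.sum_eq_single j] at h4
    · change g j * E j (x (l j)) = 0 at h4
      rwa [← ht, hE, if_pos rfl, mul_one] at h4
    · intro i _ hi
      change g i * E i (x (l j)) = 0
      rw [← ht, hE, if_neg hi, mul_zero]
    · intro h; exact absurd (Finset.mem_univ _) h
  have hEF : ∀ (D' : Derivation K L L) (b : A), cd (D'.restrictScalars ℤ) (F b) = 0 := by
    intro D' b
    ext u
    rw [coeff_cd, coeff_zero, hF, coeff_map]
    exact D'.map_algebraMap _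
  rcases pickE (k0 := k0) (m := m) (mi := mi) (C := C)
    hFm hdual hDk
    (E := fun ξ => (E ξ).restrictScalars ℤ) (fun ξ r => by
      change E ξ (algebraMap k0 L r) = 0
      rw [IsScalarTower.algebraMap_apply k0 K L]
      exact (E ξ).map_algebraMap _) (fun ξ b => hEF (E ξ) b) hx hC hBd hX hm hmi hnd'
    (q0 := q0) (by rwa [Nat.card_eq_fintype_card] at hq0) with ⟨N, hN, hline⟩ |
    ⟨τ, i1, υ, i2, tt, u, e, β, i0, pp, hβ, hpp, hsp, hli, hcard, hu⟩
  · left
    refine ⟨N, hN, ?_⟩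
    rw [← hθt]
    exact hline
  right
  obtain ⟨Δ, hΔ⟩ : ∃ Δ : (Fin w → Derivation K L L) → L, ∀ Dd, Δ Dd =
    dt e (row c0 dg D (tE C F x D θ ε) (kE C _ L dg) (fun ξ => (Dd ξ).restrictScalars ℤ)
      (eE C F x _ fun ξ => (Dd ξ).restrictScalars ℤ) tt
      (fun a => cor c0 (dg a)) (fun y => Pi.single (u y) 1) x) := ⟨_, fun _ => rfl⟩
  have hΔE : Δ E ≠ 0 := by
    rw [hΔ]
    exact dt_ne_zero e hli
  have heE : ∀ (M : Matrix (Fin w) (Fin w) L) (D1 D2 : Fin w → Derivation K L L),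
      (∀ i f, D1 i f = ∑ j, M i j * D2 j f) → ∀ i s,
      eE C F x {b : Bt j0 // b ∉ B} (fun ξ => (D1 ξ).restrictScalars ℤ) i s =
        ∑ j, M i j * eE C F x {b : Bt j0 // b ∉ B} (fun ξ => (D2 ξ).restrictScalars ℤ) j s := by
    intro M D1 D2 h i s
    rcases s with s | b
    · symm
      exact Finset.sum_eq_zero fun j _ => mul_zero (M i j)
    · change D1 i (eval x (F b.1)) / eval x (F b.1) =
        ∑ j, M i j * (D2 j (eval x (F b.1)) / eval x (F b.1))
      rw [h, Finset.sum_div]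
      exact Finset.sum_congr rfl fun j _ => by rw [mul_div_assoc]
  have hlin : ∀ (M : Matrix (Fin w) (Fin w) L) (D1 D2 : Fin w → Derivation K L L),
      (∀ i f, D1 i f = ∑ j, M i j * D2 j f) → Δ D1 = M.det * Δ D2 := by
    intro M D1 D2 h
    rw [hΔ, hΔ]
    exact dt_change e h (heE M D1 D2 h) (r := fun _ _ _ => 0) (fun a I f => by simp)
      (fun a I s => by simp) _ _ x
  refine ⟨Δ, l, E, hl, hΔE, hlin, fun Q hQ Dd hDd => ?_⟩
  obtain ⟨B', hB'⟩ : ∃ B' : Matrix (Fin w) (Fin w) L, B' = Matrix.of fun i j => Dd i (t j) :=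
    ⟨_, rfl⟩
  have hDE : ∀ i f, Dd i f = ∑ j, B' i j * E j f := fun i f => by
    rw [der_comb htb hE (Dd i) f, hB']
    rfl
  have h1 := hlin B' Dd E hDE
  by_cases hB0 : B'.det = 0
  · rw [h1, hB0, zero_mul]
    exact Ge.zero
  have hΔD : Δ Dd ≠ 0 := by
    rw [h1]
    exact mul_ne_zero hB0 hΔE
  choose ξ hξ using fun a I => exists_lift hw htr hQ (hDS a I)
  obtain ⟨D2, hD2⟩ : ∃ D2 : A → (Vr n →₀ ℕ) → Derivation ℤ L L, ∀ a I f, D2 a I f =
    D a I f - ξ a I f := ⟨fun a I => D a I - (ξ a I).restrictScalars ℤ, fun a I f => by simp⟩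
  have hED : ∀ i f, E i f = ∑ j, B'⁻¹ i j * Dd j f := by
    intro i f
    have h2 : ∀ j, B'⁻¹ i j * Dd j f = ∑ k, B'⁻¹ i j * B' j k * E k f := fun j => by
      rw [hDE, Finset.mul_sum]
      exact Finset.sum_congr rfl fun k _ => by ring
    rw [Finset.sum_congr rfl fun j _ => h2 j, Finset.sum_comm]
    have h3 : ∀ k, ∑ j, B'⁻¹ i j * B' j k * E k f =
        (1 : Matrix (Fin w) (Fin w) L) i k * E k f := by
      intro k
      rw [← Finset.sum_mul, ← Matrix.nonsing_inv_mul B' (isUnit_iff_ne_zero.2 hB0),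
        Matrix.mul_apply]
    rw [Finset.sum_congr rfl fun k _ => h3 k, Finset.sum_eq_single i]
    · rw [Matrix.one_apply_eq, one_mul]
    · intro k _ hk
      rw [Matrix.one_apply_ne (Ne.symm hk), zero_mul]
    · intro h; exact absurd (Finset.mem_univ _) h
  obtain ⟨r, hr⟩ : ∃ r : A → (Vr n →₀ ℕ) → Fin w → L, ∀ a I j, r a I j =
    ∑ k, ξ a I (t k) * B'⁻¹ k j := ⟨fun a I j => ∑ k, ξ a I (t k) * B'⁻¹ k j, fun _ _ _ => rfl⟩
  have hDD2 : ∀ a I f, D a I f = D2 a I f + ∑ j, r a I j * Dd j f := by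
    intro a I f
    rw [hD2]
    have h2 : ξ a I f = ∑ j, r a I j * Dd j f := by
      rw [der_comb htb hE (ξ a I) f]
      simp only [hr, Finset.sum_mul]
      rw [Finset.sum_comm]
      refine Finset.sum_congr rfl fun k _ => ?_
      rw [hED, Finset.mul_sum]
      exact Finset.sum_congr rfl fun j _ => by ring
    rw [← h2]
    ring
  have htt : ∀ a I s, tE C F x D θ ε a I s = tE C F x D2 θ ε a I s +
      ∑ j, r a I j * eE C F x {b : Bt j0 // b ∉ B} (fun ξ => (Dd ξ).restrictScalars ℤ) j s := by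
    intro a I s
    rcases s with s | b
    · have h0 : ∑ j, r a I j * eE C F x {b : Bt j0 // b ∉ B}
          (fun ξ => (Dd ξ).restrictScalars ℤ) j (Sum.inl s) = 0 :=
        Finset.sum_eq_zero fun j _ => mul_zero (r a I j)
      rw [h0, add_zero]
      rfl
    · change D a I (eval x (F b.1)) / eval x (F b.1) + (if a = b.1 then ε a I else 0) =
        D2 a I (eval x (F b.1)) / eval x (F b.1) + (if a = b.1 then ε a I else 0) +
          ∑ j, r a I j * (Dd j (eval x (F b.1)) / eval x (F b.1))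
      have h5 : ∑ j, r a I j * (Dd j (eval x (F b.1)) / eval x (F b.1)) =
          (∑ j, r a I j * Dd j (eval x (F b.1))) / eval x (F b.1) := by
        rw [Finset.sum_div]
        exact Finset.sum_congr rfl fun j _ => by rw [mul_div_assoc]
      rw [hDD2, h5, add_div]
      ring
  have hΔ2 : Δ Dd = dt e (row c0 dg D2 (tE C F x D2 θ ε) (kE C _ L dg)
      (fun ξ => (Dd ξ).restrictScalars ℤ) (eE C F x _ fun ξ => (Dd ξ).restrictScalars ℤ) tt
      (fun a => cor c0 (dg a)) (fun y => Pi.single (u y) 1) x) := by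
    have h2 := dt_change (c := c0) (dg := dg) (D1 := D) (D2 := D2) (θ1 := tE C F x D θ ε)
      (θ2 := tE C F x D2 θ ε) (κ := kE C _ L dg)
      (E1 := fun ξ => (E ξ).restrictScalars ℤ)
      (E2 := fun ξ => (Dd ξ).restrictScalars ℤ) (t := tt) e (B := B'⁻¹) hED
      (heE B'⁻¹ E Dd hED) hDD2 htt
      (fun a => cor c0 (dg a)) (fun y => Pi.single (u y) 1) x
    rw [h1, hΔ, h2, ← mul_assoc, ← Matrix.det_mul, Matrix.mul_nonsing_inv _
      (isUnit_iff_ne_zero.2 hB0), Matrix.det_one, one_mul]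
  have hFge : ∀ x' : Vr n → L, (∀ p, Ge Q 0 (x' p)) → ∀ b, Ge Q 0 (eval x' (F b)) := by
    intro x' hx' b
    rw [MP.eval_mon]
    refine Ge.sum _ _ fun v _ => ?_
    rw [hF, coeff_map]
    have h3 := (Ge.const (P := Q) (coeff v (NF P j0 c b))).mul
      (Ge.prod (P := Q) Finset.univ (fun p => x' p ^ v p) (fun _ => 0) fun p _ => by
        have h4 := (hx' p).pow (v p)
        rwa [mul_zero] at h4)
    rw [Finset.sum_const_zero, add_zero] at h3
    exact h3
  have hFne : ∀ lam x', Norm Q x lam x' → ∀ b, b ∉ C → eval x' (F b) ≠ 0 := by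
    intro lam x' hN b hb h
    apply hBd b hb
    rw [hN.eq, eval_sc (hFm b), h, mul_zero]
  have hDreg : ∀ i, DerReg Q (Dd i) := by
    rcases hDd with h | h
    · intro i f hf
      by_cases hf0 : f = 0
      · rw [hf0, map_zero]
        exact Or.inl rfl
      · have h3 : Ge Q (0 + 0) (Dd i f / f * f) := Ge.mul (h i f) hf
        rw [div_mul_cancel₀ _ hf0, add_zero] at h3
        exact h3
    · exact h.1
  have h3 := ordF (C := C) (F := F) (x := x) (dg := dg) (D := D2) (θ := θ) (ε := ε)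
    (E := fun ξ => (Dd ξ).restrictScalars ℤ) (c := c0) Q hFm e hx hBd
    (spans_change hED (heE B'⁻¹ E Dd hED) hDD2 htt hsp) u hpp (e' := 0) le_rfl (fun f hf a I _ => by
      rw [neg_zero, hD2]
      by_cases hf0 : f = 0
      · rw [hf0, map_zero, map_zero, sub_zero]
        exact Ge.zero
      · exact (hξ a _ f hf0).mono (hf.resolve_left hf0)) (fun a I _ s => by
      obtain ⟨z, hz⟩ := hθK a I s
      rw [hz, neg_zero]
      exact Ge.const z) (fun a I => by
      rcases hε a I with h | h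
      · rw [h]; exact Ge.zero
      · rw [h]; exact Ge.one) (fun f hf ξ => hDreg ξ f hf) (fun lam x' hN b hb a I _ => by
      have h4 := hFne lam x' hN b hb
      rw [neg_zero, hD2]
      rcases hξ a I _ h4 with h5 | h5
      · rw [h5, zero_div]
        exact Ge.zero
      · by_cases h6 : D a I (eval x' (F b)) - ξ a I (eval x' (F b)) = 0
        · rw [h6, zero_div]
          exact Ge.zero
        · refine Or.inr ?_
          rw [Q.ord_div h6 h4]
          omega) (fun lam x' hN b hb ξ' => by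
      have h4 := hFne lam x' hN b hb
      rcases hDd with h | h
      · exact h ξ' _
      · have h5 := hFge x' hN.ge b
        have h6 : Q.ord (eval x' (F b)) = 0 := by
          refine le_antisymm ?_ (h5.resolve_left h4)
          by_contra hcon
          apply h.2 b hb
          have h7 : eval x (F b) = (∏ i, lam i ^ dg b i) * eval x' (F b) := by
            rw [hN.eq]
            exact eval_sc (hFm b) lam x'
          have h8 : (∏ i, lam i ^ dg b i) ≠ 0 :=
            Finset.prod_ne_zero_iff.2 fun i _ => pow_ne_zero _ (hN.ne i)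
          rw [h7, Q.ord_mul h8 h4, Pool.Agent.TH145.GC.ord_prod Q _ _ fun i _ =>
            pow_ne_zero _ (hN.ne i)]
          have h9 : ∀ i, Q.ord (lam i ^ dg b i) = (dg b i : ℤ) * pord Q (fun j => x ⟨i, j⟩) := by
            intro i
            rw [Q.ord_pow, hN.ord]
          rw [Finset.sum_congr rfl fun i _ => h9 i]
          omega
        have h7 : Ge Q 0 (Dd ξ' (eval x' (F b))) := h.1 ξ' _ h5
        rcases h7 with h7 | h7
        · left
          change Dd ξ' (eval x' (F b)) / eval x' (F b) = 0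
          rw [h7, zero_div]
        · by_cases h8 : Dd ξ' (eval x' (F b)) = 0
          · left
            change Dd ξ' (eval x' (F b)) / eval x' (F b) = 0
            rw [h8, zero_div]
          · right
            change 0 ≤ Q.ord (Dd ξ' (eval x' (F b)) / eval x' (F b))
            rw [Q.ord_div h8 h4, h6, sub_zero]
            exact h7) (s := s) hcard (by rwa [Nat.card_eq_fintype_card] at hB) hu (by
      rw [← hΔ2]
      exact hΔD)
  rw [← hΔ2, mul_zero, sub_zero, Fintype.card_fin, hβ] at h3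
  exact Or.inr h3

/-- Subvarieties are of log general type, in a chart. -/
theorem log_chartE {K L : Type} [Field K] [Field L] [Algebra k0 K] [Algebra K L] [Algebra k0 L]
    [IsScalarTower k0 K L]
    [IsAlgClosed K] [CharZero K] [Fintype A] [DecidableEq A]
    {dg : A → Unit → ℕ} (hP : ∀ a j, IsMulti (P a j) (dg a)) (C : Finset A)
    {V : Set (MvPolynomial (Vr n) k0)} {m s w : ℕ} {mi : Unit → ℕ} (hV : MDimLE k0 V m)
    (hVi : ∀ i, PrDimLE k0 V i (mi i))
    {c0 : ∀ i, Fin (n i + 1)} {jj : ∀ a, (Vr n →₀ ℕ) → J a}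
    (hjj : ∀ a I, Dg I (dg a) → P a (jj a I) = monomial I 1)
    (hmo : ∀ a j, ∃ I, Dg I (dg a) ∧ jj a I = j) (hw : 0 < w)
    {c : Bt j0 → K} {B : Set (Bt j0)} (hB : Nat.card {b : Bt j0 // b ∉ B} ≤ s)
    {q0 : ℕ} (hq0 : q0 = 0 ∨ Fintype.card A + 2 * q0 ≤ Nat.card {b : Bt j0 // b ∉ B})
    (δ : B → Derivation k0 L L) (hδS : ∀ b, Sem K ((δ b).restrictScalars ℤ))
    (hδ : ∀ b b' : B, (b = b' ∧ δ b (algebraMap K L (c b')) = 1) ∨
      (b ≠ b' ∧ δ b (algebraMap K L (c b')) = 0)) (htr : Algebra.trdeg K L = w)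
    {x : Vr n → L} (hx : ∀ i, x ⟨i, c0 i⟩ = 1)
    (hnum : m + mi () + s + 2 ≤ ∑ a, dg a () + C.card + w + q0)
    (hgen : Algebra.IsAlgebraic (IntermediateField.adjoin K (Set.range x)) L)
    (hxV : ∀ f ∈ V, aeval x (map (algebraMap k0 K) f) = 0)
    {F : A → MvPolynomial (Vr n) K} (hF : ∀ a, F a = NF P j0 c a)
    (hC : ∀ a ∈ C, aeval x (F a) = 0) (hBd : ∀ a, a ∉ C → aeval x (F a) ≠ 0) :
    ExP jj dg q0 ⟨(), c0 ()⟩ B L (fun b => algebraMap K L (c b))
      (fun b r => δ b (algebraMap K L (c r))) x ∨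
    LogGeneralType K L w fun Q : Place K L => ∃ b, b ∉ C ∧
      ∑ i, (dg b i : ℤ) * pord Q (fun j => x ⟨i, j⟩) < Q.ord (aeval x (F b)) := by
  classical
  have hx0 : ∀ i, ∃ j, x ⟨i, j⟩ ≠ 0 := fun i => ⟨c0 i, by rw [hx]; exact one_ne_zero⟩
  have hxV' : ∀ f ∈ V, aeval x f = 0 := by
    intro f hf
    have h1 := hxV f hf
    rwa [aeval_map_algebraMap] at h1
  have hev : ∀ a, aeval x (F a) = eval x (map (algebraMap K L) (F a)) := fun a => by
    rw [eval_map, aeval_def]
  rcases core_formsE (c := c) (F := fun a => map (algebraMap K L) (F a))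
    (s := s) hP C hjj hmo hw hB hq0 δ hδS hδ htr hx hgen
    (hV L x hx0 hxV') (fun i => hVi i L x hx0 hxV') (fun a => by rw [hF])
    (fun a ha => by rw [← hev]; exact hC a ha) (fun a ha => by rw [← hev]; exact hBd a ha) with
    hline | ⟨Δ, l, E, hl, hΔE, hlin, hΔ⟩
  · exact Or.inl hline
  right
  obtain ⟨t, ht⟩ : ∃ t : Fin w → L, ∀ i, t i = x (l i) := ⟨_, fun _ => rfl⟩
  have htb : IsTranscendenceBasis K t := by
    have : t = fun i => x (l i) := funext ht
    rw [this]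
    exact hl
  obtain ⟨y, hy⟩ : ∃ y : Fin (w + 1) → L, y = Fin.cons 1 t := ⟨_, rfl⟩
  -- the signs
  have hn1 : 1 ≤ num C dg mi w m s q0 := by
    unfold num
    zify at hnum
    linarith
  have hp0 : ∀ Q : Place K L, 0 ≤ ph Q x () := fun Q => ph_nonneg Q hx ()
  have hreg : ∀ (Q : Place K L) (z : L) (j : Fin (w + 1)),
      Ge Q (num C dg mi w m s q0 * ph Q x ()) z → Ge Q 0 (z * y j) := by
    intro Q z j hz
    have h2 := mul_le_mul_of_nonneg_right hn1 (hp0 Q)
    have h3 := hp0 Q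
    rw [hy]
    refine Fin.cases ?_ (fun i => ?_) j
    · rw [Fin.cons_zero, mul_one]
      exact hz.mono (by linarith)
    · rw [Fin.cons_succ, ht]
      have h1 := hz.mul (ge_ph Q x (l i))
      refine h1.mono ?_
      change 0 ≤ num C dg mi w m s q0 * ph Q x () + - ph Q x ()
      linarith
  refine ⟨htr, 1, one_pos, fun j Dd => Δ Dd * y j, fun j M Dd => ?_, fun Q hQ j Dd hDd => ?_,
    fun Q hQ hQB j Dd hDd => ?_, E, ?_, ?_⟩
  · change Δ _ * y j = M.det ^ 1 * (Δ Dd * y j)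
    rw [pow_one, hlin M _ Dd (fun i f => ?_)]
    · ring
    · rw [← Derivation.coeFnAddMonoidHom_apply, map_sum, Finset.sum_apply]
      rfl
  · exact hreg Q _ j (hΔ Q hQ Dd (Or.inl hDd))
  · refine hreg Q _ j (hΔ Q hQ Dd (Or.inr ⟨hDd, fun b hb h => hQB ⟨b, hb, ?_⟩⟩))
    rwa [hev]
  · rw [hy]
    change Δ E * (Fin.cons 1 t : Fin (w + 1) → L) 0 ≠ 0
    rw [Fin.cons_zero, mul_one]
    exact hΔE
  · have h1 : (fun i : Fin w => Δ E * y i.succ / (Δ E * y 0)) = t := by
      funext i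
      rw [hy, Fin.cons_succ, Fin.cons_zero, mul_one, mul_div_cancel_left₀ _ hΔE]
    change AlgebraicIndependent K (fun i : Fin w => Δ E * y i.succ / (Δ E * y 0))
    rw [h1]
    exact htb.1

/-- Subvarieties are of log general type. -/
theorem log_subE {K L : Type} [Field K] [Field L] [Algebra k0 K] [Algebra K L] [Algebra k0 L]
    [IsScalarTower k0 K L]
    [IsAlgClosed K] [CharZero K] [Fintype A] [DecidableEq A]
    {dg : A → Unit → ℕ} (hP : ∀ a j, IsMulti (P a j) (dg a)) (C : Finset A)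
    {V : Set (MvPolynomial (Vr n) k0)}
    {m s w : ℕ} {mi : Unit → ℕ} (hV : MDimLE k0 V m)
    (hVi : ∀ i, PrDimLE k0 V i (mi i))
    {c0 : ∀ i, Fin (n i + 1)} {jj : ∀ a, (Vr n →₀ ℕ) → J a}
    (hjj : ∀ a I, Dg I (dg a) → P a (jj a I) = monomial I 1)
    (hmo : ∀ a j, ∃ I, Dg I (dg a) ∧ jj a I = j) (hw : 0 < w)
    (t : ∀ a, J a → K) (h0 : ∀ a, t a (j0 a) ≠ 0) {c : Bt j0 → K}
    (hc : ∀ p, c p = t p.1 p.2.1 / t p.1 (j0 p.1))
    {B : Set (Bt j0)} (hB : Nat.card {b : Bt j0 // b ∉ B} ≤ s)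
    {q0 : ℕ} (hq0 : q0 = 0 ∨ Fintype.card A + 2 * q0 ≤ Nat.card {b : Bt j0 // b ∉ B})
    (δ : B → Derivation k0 L L) (hδS : ∀ b, Sem K ((δ b).restrictScalars ℤ))
    (hδ : ∀ b b' : B, (b = b' ∧ δ b (algebraMap K L (c b')) = 1) ∨
      (b ≠ b' ∧ δ b (algebraMap K L (c b')) = 0))
    {F : A → MvPolynomial (Vr n) K}
    (hF : ∀ a, F a = ∑ j, MvPolynomial.C (t a j) * map (algebraMap k0 K) (P a j))
    (htr : Algebra.trdeg K L = w)
    {x : Vr n → L} (hx : ∀ i, x ⟨i, c0 i⟩ = 1)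
    (hnum : m + mi () + s + 2 ≤ ∑ a, dg a () + C.card + w + q0)
    (hgen : Algebra.IsAlgebraic (IntermediateField.adjoin K (Set.range x)) L)
    (hxV : ∀ f ∈ V, aeval x (map (algebraMap k0 K) f) = 0)
    (hC : ∀ a ∈ C, aeval x (F a) = 0) (hBd : ∀ a, a ∉ C → aeval x (F a) ≠ 0) :
    ExP jj dg q0 ⟨(), c0 ()⟩ B L (fun b => algebraMap K L (c b))
      (fun b r => δ b (algebraMap K L (c r))) x ∨
    LogGeneralType K L w fun Q : Place K L => ∃ b, b ∉ C ∧
      ∑ i, (dg b i : ℤ) * pord Q (fun j => x ⟨i, j⟩) < Q.ord (aeval x (F b)) := by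
  have hc' : c = fun p : Bt j0 => t p.1 p.2.1 / t p.1 (j0 p.1) := funext hc
  have hFa : ∀ a, F a = MvPolynomial.C (t a (j0 a)) * NF P j0 c a := fun a => by
    rw [hF, form_eq t h0, ← hc']
  have hFx : ∀ a, aeval x (F a) = algebraMap K L (t a (j0 a)) * aeval x (NF P j0 c a) :=
    fun a => by rw [hFa, map_mul, aeval_C]
  have ht0 : ∀ a, algebraMap K L (t a (j0 a)) ≠ 0 := fun a h => h0 a ((map_eq_zero _).1 h)
  have h1 := log_chartE (c := c) hP C hV hVi hjj hmo hw hB hq0 δ hδS hδ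
    htr hx hnum hgen hxV (F := NF P j0 c) (fun _ => rfl)
    (fun a ha => by
      have h2 := hC a ha
      rw [hFx] at h2
      exact (mul_eq_zero.1 h2).resolve_left (ht0 a))
    (fun a ha h2 => hBd a ha (by rw [hFx, h2, mul_zero]))
  have h2 : (fun Q : Place K L => ∃ b, b ∉ C ∧
      ∑ i, (dg b i : ℤ) * pord Q (fun j => x ⟨i, j⟩) < Q.ord (aeval x (F b))) =
      fun Q : Place K L => ∃ b, b ∉ C ∧
      ∑ i, (dg b i : ℤ) * pord Q (fun j => x ⟨i, j⟩) < Q.ord (aeval x (NF P j0 c b)) := by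
    funext Q
    refine propext (exists_congr fun b => and_congr_right fun hb => ?_)
    have h3 : aeval x (NF P j0 c b) ≠ 0 := by
      intro h
      apply hBd b hb
      rw [hFx, h, mul_zero]
    rw [hFx, Q.ord_mul (ht0 b) h3, Q.ord_const (h0 b), zero_add]
  rw [h2]
  exact h1

end Pool.Agent.Run7.h621.LA
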