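import Pool.Agent.Run7.h621.LA.LogUnique
import Pool.Agent.Run7.h621.LG.Sp
import Pool.Agent.Run7.h621.LG.Proj

/-!
The bad line of a pair: main theorems.
-/

set_option autoImplicit false

namespace Pool.Agent.Run7.h621.LA

open MvPolynomial FF Pool.Agent.W603.LV Pool.Agent.W603.PV Pool.Agent.W602.GT Pool.Agent.TH145.MG
open Pool.Agent.Run7.h621.LG

variable {n : ℕ} {k K : Type} [Field k] [Field K] [IsAlgClosed K] [CharZero K] [Algebra k K]
  {m s q : ℕ} {V : Set (MvPolynomial (Fin (n + 1)) (algebraicClosure k K))}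
  {A : Type} [Fintype A] {d : A → ℕ} {H : A → MvPolynomial (Fin (n + 1)) K}

/-- The span of `p` and `r` is a bad line: a line over `K` on which the equations vanish, that is
not contained in the boundary, and meets the boundary in at most two points. -/
def BadLine (V : Set (MvPolynomial (Fin (n + 1)) (algebraicClosure k K)))
    (H : A → MvPolynomial (Fin (n + 1)) K) (C : Finset A) (p r : Fin (n + 1) → K) : Prop :=
  LineIn (eqs V H C) p r ∧ FewPoints H C p r ∧
    ∀ b, b ∉ C → ∃ u v : K, eval (fun i => u * p i + v * r i) (H b) ≠ 0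

/-- There is at most one bad line. -/
def AtMostOne (V : Set (MvPolynomial (Fin (n + 1)) (algebraicClosure k K)))
    (H : A → MvPolynomial (Fin (n + 1)) K) (C : Finset A) : Prop :=
  ∀ p r p2 r2 : Fin (n + 1) → K, BadLine V H C p r → BadLine V H C p2 r2 →
    Submodule.span K (Set.range ![p2, r2]) = Submodule.span K (Set.range ![p, r])

theorem atMostOne
    (hV : DimLE (algebraicClosure k K) V m) (h : ConditionsLE k H d s) (hq : Small n d s q)
    (C : Finset A) (hnum : 2 * m + s + 1 ≤ ∑ a, d a + C.card + q) : AtMostOne V H C :=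
  fun _ _ _ _ h1 h2 => one_bad_line hV h hq C hnum h1.1 h1.2.1 h1.2.2 h2.1 h2.2.1 h2.2.2

omit [CharZero K] in
/-- The number of conditions for a bad line. -/
theorem bad_count (h : ConditionsLE k H d s) (C : Finset A) {p r : Fin (n + 1) → K}
    (hb : BadLine V H C p r) : ∑ a, d a + C.card ≤ s + 2 * n := by
  classical
  have hinf : Infinite K := IsAlgClosed.instInfinite
  obtain ⟨hl, ⟨y, z, hyz⟩, hne0⟩ := hb
  obtain ⟨i0, i1, p', r', hne, hp0, hp1, hr0, hr1, hmem, hpr⟩ := exists_nb hl.1
  have hev : ∀ (a : A) (w : Fin 2 → K), ∃ u v : K, (∀ i, w 0 * p' i + w 1 * r' i =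
      u * p i + v * r i) ∧ eval w (rs p' r' (map (algebraMap K K) (H a))) =
        aeval (fun i => u * p i + v * r i) (H a) := by
    intro a w
    obtain ⟨u, v, huv⟩ := hmem (w 0) (w 1)
    refine ⟨u, v, huv, ?_⟩
    have h3 : w = ![w 0, w 1] := by
      funext i
      fin_cases i <;> rfl
    rw [h3, rs_eval]
    have h4 : (fun i => w 0 * p' i + w 1 * r' i) = fun i => u * p i + v * r i := funext huv
    rw [h4, eval_map]
    rfl
  have h2 : ∀ a ∈ C, rs p' r' (map (algebraMap K K) (H a)) = 0 := by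
    intro a ha
    refine MvPolynomial.funext fun w => ?_
    obtain ⟨u, v, -, h1⟩ := hev a w
    rw [h1, map_zero, aeval_eq_eval]
    exact hl.2 _ (Or.inr ⟨a, ha, rfl⟩) u v
  obtain ⟨f, hf, -⟩ := trdeg_point (K := K) (p' := p') (r' := r') (x := p') (i0 := i0) (i1 := i1)
    (fun i => by rw [hp0, hp1, one_mul, zero_mul, add_zero])
  -- the points in the coordinates of the line
  have hpt : ∀ y : Fin (n + 1) → K, ∃ w1 : Fin 2 → K, w1 ≠ 0 ∧ ∀ (w : Fin 2 → K) (c : K),
      (∀ i, w 0 * p' i + w 1 * r' i = c * y i) → Par w w1 := by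
    intro y
    have hco : ∀ (w : Fin 2 → K) (c : K), (∀ i, w 0 * p' i + w 1 * r' i = c * y i) →
        w 0 = c * y i0 ∧ w 1 = c * y i1 := by
      intro w c hwc
      have h3 := hwc i0
      have h4 := hwc i1
      rw [hp0, hr0, mul_one, mul_zero, add_zero] at h3
      rw [hp1, hr1, mul_one, mul_zero, zero_add] at h4
      exact ⟨h3, h4⟩
    by_cases hy : (![y i0, y i1] : Fin 2 → K) = 0
    · refine ⟨![1, 0], fun h => one_ne_zero (congrFun h 0), fun w c hwc => ?_⟩
      have h5 := congrFun hy 0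
      have h6 := congrFun hy 1
      simp only [Matrix.cons_val_zero, Matrix.cons_val_one, Pi.zero_apply] at h5 h6
      obtain ⟨h3, h4⟩ := hco w c hwc
      unfold Par
      rw [h3, h4, h5, h6]
      simp
    · refine ⟨_, hy, fun w c hwc => ?_⟩
      obtain ⟨h3, h4⟩ := hco w c hwc
      unfold Par
      rw [h3, h4]
      simp only [Matrix.cons_val_zero, Matrix.cons_val_one]
      ring
  obtain ⟨w1, hw1, hpw1⟩ := hpt y
  obtain ⟨w2, hw2, hpw2⟩ := hpt z
  have h5 := family2 h C hne hp0 hp1 hr0 hr1 h2 hw1 hw2 (fun b hb => ⟨fun h0 => ?_, fun w hwb => ?_⟩)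
    hf
  · omega
  · obtain ⟨u, v, huv⟩ := hne0 b hb
    apply huv
    have h6 := rs_eval p' r' (map (algebraMap K K) (H b)) (u * p i0 + v * r i0)
      (u * p i1 + v * r i1)
    rw [h0, map_zero] at h6
    have h7 : (fun i => (u * p i0 + v * r i0) * p' i + (u * p i1 + v * r i1) * r' i) =
        fun i => u * p i + v * r i := funext fun i => (hpr u v i).symm
    rw [h7, Algebra.algebraMap_self, map_id] at h6
    exact h6.symm
  · obtain ⟨u, v, huv, h6⟩ := hev b w
    rw [h6] at hwb
    rcases hyz b hb u v hwb with ⟨c, hc⟩ | ⟨c, hc⟩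
    · exact Or.inl (hpw1 w c fun i => (huv i).trans (hc i))
    · exact Or.inr (hpw2 w c fun i => (huv i).trans (hc i))

/-- The closed subvarieties of positive dimension of log general type. -/
theorem gt_iff (hVh : ∀ f ∈ V, ∃ e, f.IsHomogeneous e)
    (hV : DimLE (algebraicClosure k K) V m) (h : ConditionsLE k H d s) (hq : Small n d s q)
    (C : Finset A) (hnum : 2 * m + s + 1 ≤ ∑ a, d a + C.card + q)
    {L : Type} [Field L] [Algebra K L] {w : ℕ} {x : Fin (n + 1) → L} (hw : 0 < w)
    (htr : Algebra.trdeg K L = w) (hx0 : x ≠ 0) (htop : coords K x = ⊤) (hx : OnPairOf V H C x) :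
    (LogGeneralType K L w fun Q => Q ∈ bdry C H d x) ↔
      ¬ ∃ p r, BadLine V H C p r ∧
        ∃ u v : L, ∀ i, x i = u * algebraMap K L (p i) + v * algebraMap K L (r i) := by
  have hxL : Algebra.IsAlgebraic (coords K x) L := by
    rw [htop]
    exact ⟨fun z => isAlgebraic_algebraMap (⟨z, trivial⟩ : (⊤ : IntermediateField K L))⟩
  constructor
  · rintro h1 ⟨p, r, hb, u, v, huv⟩
    exact bad_not_gt (fun a => (h.1 a).2) ⟨p, r, hb.1, hb.2.1, u, v, huv⟩
      (nc_of hw htr hxL) hx.2 htop w h1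
  · intro h1
    rcases main_sub hVh hV h hq C hw htr hx0 hxL hx (by omega) with
      ⟨p, r, hl, hfew, u, v, huv⟩ | h2
    · exact absurd ⟨p, r, ⟨hl, hfew, fun b hb => ne_of_point (C := C) huv (hx.2 b hb)⟩, u, v, huv⟩
        h1
    · exact h2

end Pool.Agent.Run7.h621.LA
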