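import Pool.Agent.Run7.h621.LA.Points

/-!
The variety contains at most one line.
-/

set_option autoImplicit false

namespace Pool.Agent.Run7.h621.LA

open MvPolynomial FF Pool.Agent.W603.LV Pool.Agent.W603.PV Pool.Agent.W602.GT Pool.Agent.TH145.MG
open Pool.Agent.W602.RG Pool.Agent.TH145.GH
open Pool.Agent.Run7.h621.FV (Ex eval_mk')
open Pool.Agent.Run7.h621.NG (Bt)
open Pool.Agent.Run7.h621.MP (Vr V1 em multi_one aeval_one dim_one Sys sys_iff NF form_eq)
open Pool.Agent.Run7.h621.LG (Dg fw pm pm_multi pm_hSt pm_inj pm_hmo form_sum ConditionsLE Small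
  LineIn OnLineIn exists_base exists_B small_of peqs exists_nbasis)

/-- Dual derivations. -/
theorem duals {k0 K β : Type} [Field k0] [Field K] [CharZero K] [Algebra k0 K] {c : β → K}
    (hc : AlgebraicIndependent k0 c) : ∃ D : β → Derivation k0 K K, ∀ b b',
      (b = b' ∧ D b (c b') = 1) ∨ (b ≠ b' ∧ D b (c b') = 0) := by
  classical
  have hck : CharZero k0 := by
    constructor
    intro a b hab
    have h1 := congrArg (algebraMap k0 K) hab
    rw [map_natCast, map_natCast] at h1
    exact Nat.cast_injective h1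
  obtain ⟨t, ht, hb⟩ := exists_isTranscendenceBasis_superset (R := k0) (A := K)
    (s := Set.range c) hc.coe_range
  choose D hD using fun b => exists_der (Subtype.val : t → K) hb
    fun y => if y.1 = c b then 1 else 0
  refine ⟨D, fun b b' => ?_⟩
  have h1 := hD b ⟨c b', ht ⟨b', rfl⟩⟩
  by_cases h : b = b'
  · refine Or.inl ⟨h, h1.trans (if_pos (by rw [h]))⟩
  · refine Or.inr ⟨h, h1.trans (if_neg ?_)⟩
    exact fun h2 => h (hc.injective h2.symm)

/-- Sequences of solutions with infinitely many values of a coordinate, of bounded height, are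
exceptional. -/
theorem seq_ex {k0 K : Type} [Field k0] [Field K] [Algebra k0 K] [IsAlgClosed k0] [IsAlgClosed K]
    [CharZero K] {J β : Type} [Finite J] {B : Set β} {W : Set (MvPolynomial (J ⊕ β) k0)} {C : ℕ}
    {Ex : ExT J B} (hW : HtAlt k0 B W C Ex) (hup : Up Ex) (c : β → K)
    (D : B → Derivation k0 K K)
    (hDc : ∀ b b' : B, (b = b' ∧ D b (c b') = 1) ∨ (b ≠ b' ∧ D b (c b') = 0))
    {x : ℕ → J → K} (hxW : ∀ m, ∀ f ∈ W, aeval (Sum.elim (x m) c) f = 0)
    (hz : ∀ j, Om.mk (fun n => x n j) ∈ OE k0 ((⊤ : Subfield K) : Set K)) {j : J}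
    (hj : Function.Injective fun m => x m j) :
    Ex (Om K) (fun b => cst K (c b)) (fun b q => cst K (D b (c q)))
      (fun j => Om.mk fun n => x n j) := by
  classical
  by_contra hcon
  have h1 := pr_limit (⊤ : Subfield K) (fun _ => trivial) hW hup (fun b => ⟨c b, trivial⟩)
    (fun b => (D b).restrictScalars ℤ) (fun _ _ _ => trivial) (fun b b' => by
      rcases hDc b b' with ⟨h1, h2⟩ | ⟨h1, h2⟩
      · rw [if_pos h1]; exact h2
      · rw [if_neg h1]; exact h2) (fun b r => (D b).map_algebraMap r)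
    (fun j => Om.mk fun n => x n j) hz (fun g hg => by
      have h1 := eval_mk' (fun n => Sum.elim (x n) c) (map (algebraMap k0 K) g)
      have h2 : (fun n => eval (Sum.elim (x n) c) (map (algebraMap k0 K) g)) =
          fun _ => 0 := by
        funext n
        rw [eval_map]
        exact hxW n g hg
      rw [h2, eval₂_map] at h1
      have h3 : (fun p => Om.mk fun n => Sum.elim (x n) c p) =
          Sum.elim (fun j => Om.mk fun n => x n j) fun b => cst K (c b) := by
        funext p
        rcases p with j | b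
        · rfl
        · rfl
      rw [h3] at h1
      exact h1) hcon j
  obtain ⟨a, ha⟩ := eventually_const h1
  exact not_all_const (J := Unit) (x := fun m _ => x m j) (fun m m' h => hj (congrFun h ()))
    (fun _ => a) fun _ => ha

variable {n : ℕ} {k K : Type} [Field k] [Field K] [IsAlgClosed K] [CharZero K] [Algebra k K]
  {m s q : ℕ} {V : Set (MvPolynomial (Fin (n + 1)) (algebraicClosure k K))}
  {A : Type} [Fintype A] {d : A → ℕ} {H : A → MvPolynomial (Fin (n + 1)) K}

/-- The variety contains at most one line. -/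
theorem one_line
    (hV : DimLE (algebraicClosure k K) V m) (h : ConditionsLE k H d s) (hq : Small n d s q)
    (hnum : 2 * m + s + 2 ≤ ∑ a, (d a + 1) + q) {p r p2 r2 : Fin (n + 1) → K}
    (hl : LineIn (peqs V H) p r) (hl2 : LineIn (peqs V H) p2 r2) :
    Submodule.span K (Set.range ![p2, r2]) = Submodule.span K (Set.range ![p, r]) := by
  classical
  have hac : IsAlgClosed (algebraicClosure k K) := (algebraicClosure.isAlgClosure k K).isAlgClosed
  have hck : CharZero (algebraicClosure k K) := by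
    constructor
    intro a b hab
    have h1 := congrArg (algebraMap (algebraicClosure k K) K) hab
    rw [map_natCast, map_natCast] at h1
    exact Nat.cast_injective h1
  have hsum : ∑ a, (d a + 1) = ∑ a, d a + Fintype.card A := by
    rw [Finset.sum_add_distrib, Finset.sum_const, smul_eq_mul, mul_one, Finset.card_univ]
  rw [hsum] at hnum
  obtain ⟨I0, hI0⟩ := exists_base h
  obtain ⟨B, hB, hBs, hBe⟩ := exists_B h I0 hI0
  have hq' := small_of hq hBe
  have := Fintype.ofFinite {b : Bt I0 // b ∉ B}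
  obtain ⟨c, hc⟩ : ∃ c : Bt I0 → K, c = fun p : Bt I0 =>
    coeff p.2.1.1 (H p.1) / coeff (I0 p.1).1 (H p.1) := ⟨_, rfl⟩
  have hind : AlgebraicIndependent (algebraicClosure k K) fun b : B => c b := by
    rw [hc]
    exact hB.algebraicClosure
  obtain ⟨D, hD⟩ := duals hind
  obtain ⟨h1, h2⟩ := dim_one hV
  obtain ⟨jj, hjj⟩ : ∃ jj, jj = jv (algebraicClosure k K) d I0 := ⟨_, rfl⟩
  obtain ⟨M, hM⟩ : ∃ M : B → Bt I0 → Om K, M = fun b q => cst K (D b (c q)) := ⟨_, rfl⟩
  -- the basis of a line
  have hbas : ∀ p r : Fin (n + 1) → K, LineIn (peqs V H) p r →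
      ∃ (i0 i1 : Fin (n + 1)) (p' r' : Fin (n + 1) → K), p' i0 = 1 ∧ p' i1 = 0 ∧ r' i0 = 0 ∧
        r' i1 = 1 ∧ p' ∈ Submodule.span K (Set.range ![p, r]) ∧
        r' ∈ Submodule.span K (Set.range ![p, r]) ∧
        ∀ t : ℕ → algebraicClosure k K, Function.Injective t →
        ExP jj (fun a _ => d a) q ⟨(), i0⟩ B (Om K) (fun b => cst K (c b)) M
          (fun v : V1 n => cst K (p' v.2) + mapOm _ K (Om.mk t) * cst K (r' v.2)) := by
    intro p r hl
    have h3 : Module.finrank K (Submodule.span K (Set.range ![p, r])) = 2 := by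
      rw [finrank_span_eq_card hl.1, Fintype.card_fin]
    obtain ⟨i0, i1, p', r', hne, hp, hr, hp0, hp1, hr0, hr1⟩ := exists_nbasis h3
    refine ⟨i0, i1, p', r', hp0, hp1, hr0, hr1, hp, hr, fun t ht => ?_⟩
    have hmem : ∀ z ∈ Submodule.span K (Set.range ![p, r]), ∃ u v : K, z = fun i =>
        u * p i + v * r i := by
      intro z hz
      rw [Matrix.range_cons, Matrix.range_cons, Matrix.range_empty, Set.union_empty,
        Set.singleton_union, Submodule.mem_span_pair] at hz
      obtain ⟨u, v, rfl⟩ := hz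
      exact ⟨u, v, rfl⟩
    have hpt : ∀ w : K, ∀ f ∈ peqs V H, eval (fun i => p' i + w * r' i) f = 0 := by
      intro w f hf
      obtain ⟨u, v, huv⟩ := hmem (p' + w • r') (Submodule.add_mem _ hp (Submodule.smul_mem _ _ hr))
      have h4 : (fun i => p' i + w * r' i) = fun i => u * p i + v * r i := huv
      rw [h4]
      exact hl.2 f hf u v
    obtain ⟨x, hx⟩ : ∃ x : ℕ → V1 n → K, ∀ m v, x m v = p' v.2 +
        algebraMap (algebraicClosure k K) K (t m) * r' v.2 := ⟨_, fun _ _ => rfl⟩
    have hmk : (fun v : V1 n => cst K (p' v.2) + mapOm _ K (Om.mk t) * cst K (r' v.2)) =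
        fun v => Om.mk fun m => x m v := by
      funext v
      simp only [hx]
      rfl
    rw [hmk, hM]
    refine seq_ex (C := 2 * (m + s)) (j := (⟨(), i1⟩ : V1 n)) (sys_alt (P := pm n d) (j0 := I0)
      (dg := fun a _ => d a) (fun a j => pm_multi d a j) h1 h2 (c0 := fun _ => i0)
      (fun a I hI => ?_) (fun a j => ?_) hBs (hq'.imp id fun h => h.1) (by omega))
      (ex_up _ _ _ _ _) c D hD (fun m => ?_) (fun v => ?_) ?_
    · rw [hjj]
      exact jv_eq a I hI
    · rw [hjj]
      exact jv_surj a j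
    · obtain ⟨y, hy⟩ : ∃ y : Fin (n + 1) → K, ∀ i, y i = p' i +
          algebraMap (algebraicClosure k K) K (t m) * r' i := ⟨_, fun _ => rfl⟩
      have h5 : x m = fun v : V1 n => y v.2 := by
        funext v
        rw [hx, hy]
      have hyp : ∀ f ∈ peqs V H, eval y f = 0 := by
        intro f hf
        have h6 := hpt (algebraMap (algebraicClosure k K) K (t m)) f hf
        have h7 : y = fun i => p' i + algebraMap (algebraicClosure k K) K (t m) * r' i :=
          funext hy
        rw [h7]
        exact h6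
      have hyV : ∀ f ∈ V, aeval y f = 0 := by
        intro f hf
        have h6 := hyp _ (Or.inl ⟨f, hf, rfl⟩)
        rw [eval_map] at h6
        exact h6
      have hyH : ∀ a, eval y (H a) = 0 := fun a => hyp _ (Or.inr ⟨a, rfl⟩)
      have hy1 : y i0 = 1 := by rw [hy, hp0, hr0, mul_zero, add_zero]
      rw [h5, hc]
      exact sys_sol (fun a => (h.1 a).2) hI0 hy1 hyV hyH
    · have h7 := congrFun hmk v
      rw [← h7]
      exact add_mem (Subfield.subset_closure (Or.inr ⟨_, trivial, rfl⟩))
        (mul_mem (Subfield.subset_closure (Or.inl ⟨_, rfl⟩))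
          (Subfield.subset_closure (Or.inr ⟨_, trivial, rfl⟩)))
    · intro a b hab
      have h8 : x a ⟨(), i1⟩ = x b ⟨(), i1⟩ := hab
      rw [hx, hx] at h8
      change p' i1 + _ * r' i1 = p' i1 + _ * r' i1 at h8
      rw [hr1, mul_one, mul_one] at h8
      exact ht ((algebraMap (algebraicClosure k K) K).injective (add_left_cancel h8))
  obtain ⟨i0, i1, p', r', hp0, hp1, hr0, hr1, hpW, hrW, hex⟩ := hbas p r hl
  obtain ⟨i2, i3, p2', r2', hp20, hp21, hr20, hr21, hpW2, hrW2, hex2⟩ := hbas p2 r2 hl2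
  -- the sequences
  obtain ⟨t1, ht1⟩ : ∃ t1 : ℕ → algebraicClosure k K, ∀ m, t1 m = m := ⟨_, fun _ => rfl⟩
  obtain ⟨t2, ht2⟩ : ∃ t2 : ℕ → algebraicClosure k K, ∀ m, t2 m = m + 1 := ⟨_, fun _ => rfl⟩
  have hi1 : Function.Injective t1 := fun a b hab => by
    rw [ht1, ht1] at hab
    exact Nat.cast_injective hab
  have hi2 : Function.Injective t2 := fun a b hab => by
    rw [ht2, ht2] at hab
    exact Nat.cast_injective (add_right_cancel hab)
  obtain ⟨T, hT⟩ : ∃ T : Om K, T = mapOm _ K (Om.mk t1) := ⟨_, rfl⟩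
  have hT2 : mapOm _ K (Om.mk t2) = T + 1 := by
    have h3 : Om.mk t2 = Om.mk t1 + 1 := by
      rw [← Om.mk_one, Om.mk_add]
      congr 1
      funext m
      rw [ht1, ht2]
    rw [h3, map_add, map_one, hT]
  have e1 := hex t1 hi1
  have e2 := hex t2 hi2
  have e3 := hex2 t1 hi1
  have e4 := hex2 t2 hi2
  rw [← hT] at e1 e3
  rw [hT2] at e2 e4
  obtain ⟨N', hN', hE'⟩ := e1
  obtain ⟨P, R, hPR⟩ := exc_line (fun w hw => th_nondeg (fun b => cst K (c b)) M
        (G := fun a => {I | Dg I fun _ : Unit => d a}) (jI := jj) (fun a j => by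
          rw [hjj]
          exact jv_surj a j) w fun a I hI => hw a I hI) hE'
  have hon : ∀ (i : Fin (n + 1)) (x : V1 n → Om K),
      ExP jj (fun a _ => d a) q ⟨(), i⟩ B (Om K) (fun b => cst K (c b)) M x →
      x ∈ Submodule.span (Om K) {P, R} := by
    rintro i x ⟨N, hN, hE⟩
    rcases hq' with hq' | ⟨-, hq'⟩
    · omega
    rw [Nat.card_eq_fintype_card] at hq'
    obtain ⟨u, v, huv⟩ := hPR N _ _ hE (by omega)
    rw [Submodule.mem_span_pair]
    exact ⟨u, v, funext fun i => (huv i).symm⟩
  have m1 := hon _ _ ⟨N', hN', hE'⟩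
  have m2 := hon _ _ e2
  have m3 := hon _ _ e3
  have m4 := hon _ _ e4
  obtain ⟨W0, hW0⟩ : ∃ W0, W0 = Submodule.span (Om K) {P, R} := ⟨_, rfl⟩
  rw [← hW0] at m1 m2 m3 m4
  have hvec : ∀ p' r' : Fin (n + 1) → K,
      (fun v : V1 n => cst K (p' v.2) + T * cst K (r' v.2)) ∈ W0 →
      (fun v : V1 n => cst K (p' v.2) + (T + 1) * cst K (r' v.2)) ∈ W0 →
      (fun v : V1 n => cst K (p' v.2)) ∈ W0 ∧ (fun v : V1 n => cst K (r' v.2)) ∈ W0 := by
    intro p' r' g1 g2
    have g3 := Submodule.sub_mem _ g2 g1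
    have g4 : ((fun v : V1 n => cst K (p' v.2) + (T + 1) * cst K (r' v.2)) -
        fun v : V1 n => cst K (p' v.2) + T * cst K (r' v.2)) = fun v => cst K (r' v.2) := by
      funext v
      rw [Pi.sub_apply]
      ring
    rw [g4] at g3
    refine ⟨?_, g3⟩
    have g5 := Submodule.sub_mem _ g1 (Submodule.smul_mem _ T g3)
    have g6 : ((fun v : V1 n => cst K (p' v.2) + T * cst K (r' v.2)) -
        T • fun v : V1 n => cst K (r' v.2)) = fun v => cst K (p' v.2) := by
      funext v
      rw [Pi.sub_apply, Pi.smul_apply, smul_eq_mul]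
      ring
    rwa [g6] at g5
  obtain ⟨w1, w2⟩ := hvec p' r' m1 m2
  obtain ⟨w3, w4⟩ := hvec p2' r2' m3 m4
  have hind1 : LinearIndependent (Om K) ![(fun v : V1 n => cst K (p' v.2)),
      fun v : V1 n => cst K (r' v.2)] := by
    rw [LinearIndependent.pair_iff]
    intro a b hab
    have g1 := congrFun hab ⟨(), i0⟩
    have g2 := congrFun hab ⟨(), i1⟩
    rw [Pi.add_apply, Pi.smul_apply, Pi.smul_apply, smul_eq_mul, smul_eq_mul, Pi.zero_apply] at g1 g2
    change a * cst K (p' i0) + b * cst K (r' i0) = 0 at g1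
    change a * cst K (p' i1) + b * cst K (r' i1) = 0 at g2
    rw [hp0, hr0, map_one, map_zero, mul_one, mul_zero, add_zero] at g1
    rw [hp1, hr1, map_one, map_zero, mul_zero, mul_one, zero_add] at g2
    exact ⟨g1, g2⟩
  have hW : Submodule.span (Om K) (Set.range ![(fun v : V1 n => cst K (p' v.2)),
      fun v : V1 n => cst K (r' v.2)]) = W0 := by
    refine Submodule.eq_of_le_of_finrank_le ?_ ?_
    · rw [Submodule.span_le]
      rintro _ ⟨i, rfl⟩
      fin_cases i
      · exact w1
      · exact w2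
    · rw [finrank_span_eq_card hind1, Fintype.card_fin, hW0]
      refine (finrank_span_le_card _).trans ?_
      rw [Set.toFinset_card]
      refine (Fintype.card_le_of_injective (fun z : ({P, R} : Set (V1 n → Om K)) =>
        (if z.1 = P then (0 : Fin 2) else 1)) ?_).trans (by rw [Fintype.card_fin])
      rintro ⟨z, hz⟩ ⟨z', hz'⟩ hzz
      apply Subtype.ext
      change z = z'
      simp only [Set.mem_insert_iff, Set.mem_singleton_iff] at hz hz'
      by_cases g1 : z = P
      · by_cases g2 : z' = P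
        · rw [g1, g2]
        · simp [g1, g2] at hzz
      · by_cases g2 : z' = P
        · simp [g1, g2] at hzz
        · rw [hz.resolve_left g1, hz'.resolve_left g2]
  have hin : ∀ y : Fin (n + 1) → K, (fun v : V1 n => cst K (y v.2)) ∈ W0 →
      y ∈ Submodule.span K (Set.range ![p, r]) := by
    intro y hy
    rw [← hW, Matrix.range_cons, Matrix.range_cons, Matrix.range_empty, Set.union_empty,
      Set.singleton_union, Submodule.mem_span_pair] at hy
    obtain ⟨a, b, hab⟩ := hy
    have g0 : ∀ i, a * cst K (p' i) + b * cst K (r' i) = cst K (y i) := fun i =>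
      congrFun hab ⟨(), i⟩
    have g1 := g0 i0
    have g2 := g0 i1
    rw [hp0, hr0, map_one, map_zero, mul_one, mul_zero, add_zero] at g1
    rw [hp1, hr1, map_one, map_zero, mul_zero, mul_one, zero_add] at g2
    have g3 : y = y i0 • p' + y i1 • r' := by
      funext i
      apply (cst K).injective
      rw [Pi.add_apply, Pi.smul_apply, Pi.smul_apply, smul_eq_mul, smul_eq_mul, map_add, map_mul,
        map_mul, ← g1, ← g2, g0 i]
    rw [g3]
    exact Submodule.add_mem _ (Submodule.smul_mem _ _ hpW) (Submodule.smul_mem _ _ hrW)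
  -- the second line
  have hp2 := hin p2' w3
  have hr2 := hin r2' w4
  have hind2 : LinearIndependent K ![p2', r2'] := by
    rw [LinearIndependent.pair_iff]
    intro a b hab
    have g1 := congrFun hab i2
    have g2 := congrFun hab i3
    rw [Pi.add_apply, Pi.smul_apply, Pi.smul_apply, smul_eq_mul, smul_eq_mul, Pi.zero_apply] at g1 g2
    rw [hp20, hr20, mul_one, mul_zero, add_zero] at g1
    rw [hp21, hr21, mul_zero, mul_one, zero_add] at g2
    exact ⟨g1, g2⟩
  have hspan2 : Submodule.span K (Set.range ![p2', r2']) =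
      Submodule.span K (Set.range ![p2, r2]) := by
    refine Submodule.eq_of_le_of_finrank_le ?_ ?_
    · rw [Submodule.span_le]
      rintro _ ⟨i, rfl⟩
      fin_cases i
      · exact hpW2
      · exact hrW2
    · rw [finrank_span_eq_card hind2, finrank_span_eq_card hl2.1]
  rw [← hspan2]
  refine Submodule.eq_of_le_of_finrank_le ?_ ?_
  · rw [Submodule.span_le]
    rintro _ ⟨i, rfl⟩
    fin_cases i
    · exact hp2
    · exact hr2
  · rw [finrank_span_eq_card hind2, finrank_span_eq_card hl.1]

end Pool.Agent.Run7.h621.LA
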