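import Pool.Agent.Run7.h621.LA.LogCore
import Pool.Agent.Run7.h621.LA.Unique
import Pool.Agent.Run7.h621.LG.Conv3

/-!
A pair contains at most one line that meets the boundary in at most two points.
-/

set_option autoImplicit false

namespace Pool.Agent.Run7.h621.LA

open MvPolynomial FF Pool.Agent.W603.LV Pool.Agent.W603.PV Pool.Agent.W602.GT Pool.Agent.TH145.MG
open Pool.Agent.W602.RG Pool.Agent.TH145.GH Pool.Agent.TH145.GF
open Pool.Agent.Run7.h621.FV (Ex eval_mk')
open Pool.Agent.Run7.h621.NG (Bt)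
open Pool.Agent.Run7.h621.MP (Vr V1 em multi_one aeval_one dim_one Sys sys_iff NF form_eq)
open Pool.Agent.Run7.h621.LG (Dg fw pm pm_multi pm_hSt pm_inj pm_hmo form_sum ConditionsLE Small
  LineIn OnLineIn exists_base exists_B small_of peqs exists_nbasis eqs FewPoints OnPairOf bdry
  OnBadLine exists_nb rs rs_eval aeval_rs rs_homogeneous binary_zero bd_one bad_not_gt)

variable {n : ℕ}

/-- Equality of two lines. -/
theorem span_eq_of {K L : Type} [Field K] [Field L] [Algebra K L] {p r p2 r2 : Fin (n + 1) → K}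
    (hl : LinearIndependent K ![p, r]) (hl2 : LinearIndependent K ![p2, r2])
    {i0 i1 i2 i3 : Fin (n + 1)} {p' r' p2' r2' : Fin (n + 1) → K}
    (hp0 : p' i0 = 1) (hp1 : p' i1 = 0) (hr0 : r' i0 = 0) (hr1 : r' i1 = 1)
    (hpW : p' ∈ Submodule.span K (Set.range ![p, r]))
    (hrW : r' ∈ Submodule.span K (Set.range ![p, r]))
    (hp20 : p2' i2 = 1) (hp21 : p2' i3 = 0) (hr20 : r2' i2 = 0) (hr21 : r2' i3 = 1)
    (hpW2 : p2' ∈ Submodule.span K (Set.range ![p2, r2]))
    (hrW2 : r2' ∈ Submodule.span K (Set.range ![p2, r2])) {T : L} {P R : V1 n → L}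
    (m1 : (fun v : V1 n => algebraMap K L (p' v.2) + T * algebraMap K L (r' v.2)) ∈
      Submodule.span L {P, R})
    (m2 : (fun v : V1 n => algebraMap K L (p' v.2) + (T + 1) * algebraMap K L (r' v.2)) ∈
      Submodule.span L {P, R})
    (m3 : (fun v : V1 n => algebraMap K L (p2' v.2) + T * algebraMap K L (r2' v.2)) ∈
      Submodule.span L {P, R})
    (m4 : (fun v : V1 n => algebraMap K L (p2' v.2) + (T + 1) * algebraMap K L (r2' v.2)) ∈
      Submodule.span L {P, R}) :
    Submodule.span K (Set.range ![p2, r2]) = Submodule.span K (Set.range ![p, r]) := by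
  classical
  obtain ⟨W0, hW0⟩ : ∃ W0, W0 = Submodule.span L {P, R} := ⟨_, rfl⟩
  rw [← hW0] at m1 m2 m3 m4
  have hvec : ∀ p' r' : Fin (n + 1) → K,
      (fun v : V1 n => algebraMap K L (p' v.2) + T * algebraMap K L (r' v.2)) ∈ W0 →
      (fun v : V1 n => algebraMap K L (p' v.2) + (T + 1) * algebraMap K L (r' v.2)) ∈ W0 →
      (fun v : V1 n => algebraMap K L (p' v.2)) ∈ W0 ∧ (fun v : V1 n => algebraMap K L (r' v.2)) ∈ W0 := by
    intro p' r' g1 g2
    have g3 := Submodule.sub_mem _ g2 g1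
    have g4 : ((fun v : V1 n => algebraMap K L (p' v.2) + (T + 1) * algebraMap K L (r' v.2)) -
        fun v : V1 n => algebraMap K L (p' v.2) + T * algebraMap K L (r' v.2)) = fun v => algebraMap K L (r' v.2) := by
      funext v
      rw [Pi.sub_apply]
      ring
    rw [g4] at g3
    refine ⟨?_, g3⟩
    have g5 := Submodule.sub_mem _ g1 (Submodule.smul_mem _ T g3)
    have g6 : ((fun v : V1 n => algebraMap K L (p' v.2) + T * algebraMap K L (r' v.2)) -
        T • fun v : V1 n => algebraMap K L (r' v.2)) = fun v => algebraMap K L (p' v.2) := by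
      funext v
      rw [Pi.sub_apply, Pi.smul_apply, smul_eq_mul]
      ring
    rwa [g6] at g5
  obtain ⟨w1, w2⟩ := hvec p' r' m1 m2
  obtain ⟨w3, w4⟩ := hvec p2' r2' m3 m4
  have hind1 : LinearIndependent L ![(fun v : V1 n => algebraMap K L (p' v.2)),
      fun v : V1 n => algebraMap K L (r' v.2)] := by
    rw [LinearIndependent.pair_iff]
    intro a b hab
    have g1 := congrFun hab ⟨(), i0⟩
    have g2 := congrFun hab ⟨(), i1⟩
    rw [Pi.add_apply, Pi.smul_apply, Pi.smul_apply, smul_eq_mul, smul_eq_mul, Pi.zero_apply] at g1 g2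
    change a * algebraMap K L (p' i0) + b * algebraMap K L (r' i0) = 0 at g1
    change a * algebraMap K L (p' i1) + b * algebraMap K L (r' i1) = 0 at g2
    rw [hp0, hr0, map_one, map_zero, mul_one, mul_zero, add_zero] at g1
    rw [hp1, hr1, map_one, map_zero, mul_zero, mul_one, zero_add] at g2
    exact ⟨g1, g2⟩
  have hW : Submodule.span L (Set.range ![(fun v : V1 n => algebraMap K L (p' v.2)),
      fun v : V1 n => algebraMap K L (r' v.2)]) = W0 := by
    refine Submodule.eq_of_le_of_finrank_le ?_ ?_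
    · rw [Submodule.span_le]
      rintro _ ⟨i, rfl⟩
      fin_cases i
      · exact w1
      · exact w2
    · rw [finrank_span_eq_card hind1, Fintype.card_fin, hW0]
      refine (finrank_span_le_card _).trans ?_
      rw [Set.toFinset_card]
      refine (Fintype.card_le_of_injective (fun z : ({P, R} : Set (V1 n → L)) =>
        (if z.1 = P then (0 : Fin 2) else 1)) ?_).trans (by rw [Fintype.card_fin])
      rintro ⟨z, hz⟩ ⟨z', hz'⟩ hzz
      apply Subtype.ext
      change z = z'
      simp only [Set.mem_insert_iff, Set.mem_singleton_iff] at hz hz'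
      by_cases g1 : z = P
      · by_cases g2 : z' = P
        · rw [g1, g2]
        · simp [g1, g2] at hzz
      · by_cases g2 : z' = P
        · simp [g1, g2] at hzz
        · rw [hz.resolve_left g1, hz'.resolve_left g2]
  have hin : ∀ y : Fin (n + 1) → K, (fun v : V1 n => algebraMap K L (y v.2)) ∈ W0 →
      y ∈ Submodule.span K (Set.range ![p, r]) := by
    intro y hy
    rw [← hW, Matrix.range_cons, Matrix.range_cons, Matrix.range_empty, Set.union_empty,
      Set.singleton_union, Submodule.mem_span_pair] at hy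
    obtain ⟨a, b, hab⟩ := hy
    have g0 : ∀ i, a * algebraMap K L (p' i) + b * algebraMap K L (r' i) = algebraMap K L (y i) := fun i =>
      congrFun hab ⟨(), i⟩
    have g1 := g0 i0
    have g2 := g0 i1
    rw [hp0, hr0, map_one, map_zero, mul_one, mul_zero, add_zero] at g1
    rw [hp1, hr1, map_one, map_zero, mul_zero, mul_one, zero_add] at g2
    have g3 : y = y i0 • p' + y i1 • r' := by
      funext i
      apply (algebraMap K L).injective
      rw [Pi.add_apply, Pi.smul_apply, Pi.smul_apply, smul_eq_mul, smul_eq_mul, map_add, map_mul,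
        map_mul, ← g1, ← g2, g0 i]
    rw [g3]
    exact Submodule.add_mem _ (Submodule.smul_mem _ _ hpW) (Submodule.smul_mem _ _ hrW)
  -- the second line
  have hp2 := hin p2' w3
  have hr2 := hin r2' w4
  have hind2 : LinearIndependent K ![p2', r2'] := by
    rw [LinearIndependent.pair_iff]
    intro a b hab
    have g1 := congrFun hab i2
    have g2 := congrFun hab i3
    rw [Pi.add_apply, Pi.smul_apply, Pi.smul_apply, smul_eq_mul, smul_eq_mul, Pi.zero_apply] at g1 g2
    rw [hp20, hr20, mul_one, mul_zero, add_zero] at g1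
    rw [hp21, hr21, mul_zero, mul_one, zero_add] at g2
    exact ⟨g1, g2⟩
  have hspan2 : Submodule.span K (Set.range ![p2', r2']) =
      Submodule.span K (Set.range ![p2, r2]) := by
    refine Submodule.eq_of_le_of_finrank_le ?_ ?_
    · rw [Submodule.span_le]
      rintro _ ⟨i, rfl⟩
      fin_cases i
      · exact hpW2
      · exact hrW2
    · rw [finrank_span_eq_card hind2, finrank_span_eq_card hl2]
  rw [← hspan2]
  refine Submodule.eq_of_le_of_finrank_le ?_ ?_
  · rw [Submodule.span_le]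
    rintro _ ⟨i, rfl⟩
    fin_cases i
    · exact hp2
    · exact hr2
  · rw [finrank_span_eq_card hind2, finrank_span_eq_card hl]


variable {k K : Type} [Field k] [Field K] [IsAlgClosed K] [CharZero K] [Algebra k K]
  {m s q : ℕ} {V : Set (MvPolynomial (Fin (n + 1)) (algebraicClosure k K))}
  {A : Type} {d : A → ℕ} {H : A → MvPolynomial (Fin (n + 1)) K}

omit [CharZero K] in
/-- A generic point of a line. -/
theorem gen_pt (hH : ∀ a, (H a).IsHomogeneous (d a)) {C : Finset A} {p r : Fin (n + 1) → K}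
    (hl : LineIn (eqs V H C) p r)
    (hne0 : ∀ b, b ∉ C → ∃ u v : K, eval (fun i => u * p i + v * r i) (H b) ≠ 0)
    {i0 i1 : Fin (n + 1)} {p' r' : Fin (n + 1) → K}
    (hp0 : p' i0 = 1) (hp1 : p' i1 = 0) (hr0 : r' i0 = 0) (hr1 : r' i1 = 1)
    (hmem : ∀ u v : K, ∃ a b : K, ∀ i, u * p' i + v * r' i = a * p i + b * r i)
    (hpr : ∀ (a b : K) (i : Fin (n + 1)), a * p i + b * r i =
      (a * p i0 + b * r i0) * p' i + (a * p i1 + b * r i1) * r' i)
    {L : Type} [Field L] [Algebra K L] {t : L} (ht : Transcendental K t)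
    (htop : IntermediateField.adjoin K {t} = ⊤) {x : Fin (n + 1) → L}
    (hx : ∀ i, x i = algebraMap K L (p' i) + t * algebraMap K L (r' i)) :
    x i0 = 1 ∧ x i1 = t ∧ coords K x = ⊤ ∧ OnPairOf V H C x ∧
      (∃ j l, Transcendental K (x j / x l)) ∧
      ∃ u v, ∀ i, x i = u * algebraMap K L (p i) + v * algebraMap K L (r i) := by
  classical
  have hinf : Infinite K := IsAlgClosed.instInfinite
  have hx0 : x i0 = 1 := by
    rw [hx, hp0, hr0, map_one, map_zero, mul_zero, add_zero]
  have hx1 : x i1 = t := by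
    rw [hx, hp1, hr1, map_one, map_zero, mul_one, zero_add]
  have hx' : (fun i => t * algebraMap K L (r' i) + 1 * algebraMap K L (p' i)) = x := by
    funext i
    rw [hx, one_mul, add_comm]
  have htr : Transcendental K (x i1 / x i0) := by rwa [hx0, hx1, div_one]
  refine ⟨hx0, hx1, ?_, ⟨fun f hf => ?_, fun b hb h => ?_⟩, ⟨i1, i0, htr⟩, ?_⟩
  · rw [eq_top_iff, ← htop, IntermediateField.adjoin_le_iff]
    rintro _ rfl
    refine IntermediateField.subset_adjoin _ _ ⟨i1, i0, by rw [hx0]; exact one_ne_zero, ?_⟩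
    rw [hx0, hx1, div_one]
  · have h1 : rs r' p' f = 0 := by
      refine MvPolynomial.funext fun w => ?_
      have h3 : w = ![w 0, w 1] := by
        funext i
        fin_cases i <;> rfl
      obtain ⟨a, b, hab⟩ := hmem (w 1) (w 0)
      rw [h3, rs_eval, map_zero, show (fun i => w 0 * r' i + w 1 * p' i) = fun i =>
        a * p i + b * r i from funext fun i => by rw [← hab i, add_comm]]
      exact hl.2 f hf a b
    have h2 := aeval_rs r' p' f t 1
    rw [h1, map_zero, hx'] at h2
    exact h2.symm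
  · obtain ⟨u, v, huv⟩ := hne0 b hb
    have h2 := aeval_rs r' p' (H b) t 1
    rw [hx', h] at h2
    have h3 := binary_zero (rs_homogeneous r' p' (hH b)) one_ne_zero
      (by rw [div_one]; exact ht) h2
    apply huv
    have h4 := rs_eval r' p' (H b) (u * p i1 + v * r i1) (u * p i0 + v * r i0)
    rw [h3, map_zero] at h4
    rw [h4]
    congr 1
    exact congrArg _ (funext fun i => by rw [hpr u v i, add_comm])
  · obtain ⟨a1, b1, h1⟩ := hmem 1 0
    obtain ⟨a2, b2, h2⟩ := hmem 0 1
    refine ⟨algebraMap K _ a1 + t * algebraMap K _ a2,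
      algebraMap K _ b1 + t * algebraMap K _ b2, fun i => ?_⟩
    have e1 := h1 i
    have e2 := h2 i
    simp only [one_mul, zero_mul, add_zero, zero_add] at e1 e2
    rw [hx, e1, e2]
    simp only [map_add, map_mul]
    ring

/-- The generic points of the bad lines are exceptional. -/
theorem exc_of_bad [Fintype A] (hV : DimLE (algebraicClosure k K) V m)
    (h : ConditionsLE k H d s) (C : Finset A) (hnum : 2 * m + s + 1 ≤ ∑ a, d a + C.card + q)
    {I0 : ∀ a, Ex (Fin (n + 1)) (d a)} (hI0 : ∀ a, coeff (I0 a).1 (H a) ≠ 0)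
    {B : Set (Bt I0)} (hBs : Nat.card {b : Bt I0 // b ∉ B} ≤ s)
    (hq' : q = 0 ∨ Fintype.card A + 2 * q ≤ Nat.card {b : Bt I0 // b ∉ B})
    {c : Bt I0 → K} (hc : ∀ p, c p = coeff p.2.1.1 (H p.1) / coeff (I0 p.1).1 (H p.1))
    {L : Type} [Field L] [Algebra K L]
    (δ : B → Derivation (algebraicClosure k K) L L)
    (hδS : ∀ b, Sem K ((δ b).restrictScalars ℤ))
    (hδ : ∀ b b' : B, (b = b' ∧ δ b (algebraMap K L (c b')) = 1) ∨
      (b ≠ b' ∧ δ b (algebraMap K L (c b')) = 0))
    (htr1 : Algebra.trdeg K L = ((1 : ℕ) : Cardinal)) {p r : Fin (n + 1) → K}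
    (hl : LineIn (eqs V H C) p r) (hfew : FewPoints H C p r)
    (hne0 : ∀ b, b ∉ C → ∃ u v : K, eval (fun i => u * p i + v * r i) (H b) ≠ 0)
    {i0 i1 : Fin (n + 1)} {p' r' : Fin (n + 1) → K}
    (hp0 : p' i0 = 1) (hp1 : p' i1 = 0) (hr0 : r' i0 = 0) (hr1 : r' i1 = 1)
    (hmem : ∀ u v : K, ∃ a b : K, ∀ i, u * p' i + v * r' i = a * p i + b * r i)
    (hpr : ∀ (a b : K) (i : Fin (n + 1)), a * p i + b * r i =
      (a * p i0 + b * r i0) * p' i + (a * p i1 + b * r i1) * r' i)
    {t : L} (ht : Transcendental K t) (htop : IntermediateField.adjoin K {t} = ⊤) :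
    ExP (jv (algebraicClosure k K) d I0) (fun a _ => d a) q ⟨(), i0⟩ B L
      (fun b => algebraMap K L (c b)) (fun b r => δ b (algebraMap K L (c r)))
      (fun v : V1 n => algebraMap K L (p' v.2) + t * algebraMap K L (r' v.2)) := by
  classical
  obtain ⟨x, hx⟩ : ∃ x : Fin (n + 1) → L, ∀ i, x i = algebraMap K L (p' i) +
    t * algebraMap K L (r' i) := ⟨_, fun _ => rfl⟩
  have hH : ∀ a, (H a).IsHomogeneous (d a) := fun a => (h.1 a).2
  obtain ⟨hx0, hx1, hct, hpair, hnc, huv⟩ := gen_pt hH hl hne0 hp0 hp1 hr0 hr1 hmem hpr ht htop hx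
  have hxf : (fun v : V1 n => algebraMap K L (p' v.2) + t * algebraMap K L (r' v.2)) =
      fun v : V1 n => x v.2 := funext fun v => (hx v.2).symm
  rw [hxf]
  obtain ⟨h1, h2⟩ := dim_one hV
  have h3 := log_subE (n := fun _ : Unit => n) (P := pm (k0 := algebraicClosure k K) n d)
    (j0 := I0) (dg := fun a _ => d a) (fun a j => pm_multi d a j) C (V := rename (em n) '' V)
    (m := m) (s := s) (w := 1) (mi := fun _ => m) h1 h2
    (c0 := fun _ => i0) (jj := jv (algebraicClosure k K) d I0) (fun a I hI => jv_eq a I hI)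
    (fun a j => jv_surj a j) one_pos (fun a j => coeff j.1 (H a)) hI0 hc hBs hq' δ hδS hδ
    (F := fun a => rename (em n) (H a)) (fun a => form_sum hH a) htr1 (x := fun p => x p.2)
    (fun _ => hx0) (by omega) (by
      have h4 : IntermediateField.adjoin K (Set.range fun p : V1 n => x p.2) = ⊤ := by
        rw [eq_top_iff, ← htop, IntermediateField.adjoin_le_iff]
        rintro _ rfl
        exact IntermediateField.subset_adjoin _ _ ⟨⟨(), i1⟩, hx1⟩
      rw [h4]
      exact ⟨fun z => isAlgebraic_algebraMap (⟨z, trivial⟩ : (⊤ : IntermediateField K L))⟩) (by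
      rintro _ ⟨f, hf, rfl⟩
      rw [map_rename, aeval_one]
      exact hpair.1 _ (Or.inl ⟨f, hf, rfl⟩)) (fun a ha => by
      rw [aeval_one]
      exact hpair.1 _ (Or.inr ⟨a, ha, rfl⟩)) (fun a ha => by
      rw [aeval_one]
      exact hpair.2 a ha)
  refine h3.resolve_right fun h3 => ?_
  have h4 : (fun Q : Place K L => ∃ b, b ∉ C ∧ d b * pord Q x < Q.ord (aeval x (H b))) =
      (fun Q : Place K L => ∃ b, b ∉ C ∧
      ∑ i : Unit, ((d b : ℕ) : ℤ) * pord Q (fun j => (fun p : V1 n => x p.2) ⟨i, j⟩) <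
        Q.ord (aeval (fun p : V1 n => x p.2) (rename (em n) (H b)))) :=
    funext fun Q => propext (bd_one C x Q).symm
  refine bad_not_gt (V := V) hH (C := C) (x := x) ⟨p, r, hl, hfew, huv⟩ hnc hpair.2 hct 1 ?_
  change LogGeneralType K L 1 (fun Q : Place K L => ∃ b, b ∉ C ∧
    d b * pord Q x < Q.ord (aeval x (H b)))
  rw [h4]
  exact h3

/-- There is at most one bad line. -/
theorem one_bad_line_aux [Fintype A] {L : Type} [Field L] [Algebra K L] {T : L}
    (hX : Transcendental K T) (hadj : IntermediateField.adjoin K {T} = ⊤)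
    (htr : Algebra.trdeg K L = ((1 : ℕ) : Cardinal))
    (hV : DimLE (algebraicClosure k K) V m) (h : ConditionsLE k H d s) (hq : Small n d s q)
    (C : Finset A) (hnum : 2 * m + s + 1 ≤ ∑ a, d a + C.card + q)
    {p r p2 r2 : Fin (n + 1) → K}
    (hl : LineIn (eqs V H C) p r) (hfew : FewPoints H C p r)
    (hne : ∀ b, b ∉ C → ∃ u v : K, eval (fun i => u * p i + v * r i) (H b) ≠ 0)
    (hl2 : LineIn (eqs V H C) p2 r2) (hfew2 : FewPoints H C p2 r2)
    (hne2 : ∀ b, b ∉ C → ∃ u v : K, eval (fun i => u * p2 i + v * r2 i) (H b) ≠ 0) :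
    Submodule.span K (Set.range ![p2, r2]) = Submodule.span K (Set.range ![p, r]) := by
  classical
  have hac : IsAlgClosed (algebraicClosure k K) := (algebraicClosure.isAlgClosure k K).isAlgClosed
  obtain ⟨I0, hI0⟩ := exists_base h
  obtain ⟨B, hB, hBs, hBe⟩ := exists_B h I0 hI0
  have hq' := small_of hq hBe
  have := Fintype.ofFinite {b : Bt I0 // b ∉ B}
  obtain ⟨c, hc⟩ : ∃ c : Bt I0 → K, c = fun p : Bt I0 =>
    coeff p.2.1.1 (H p.1) / coeff (I0 p.1).1 (H p.1) := ⟨_, rfl⟩
  have hind : AlgebraicIndependent (algebraicClosure k K) fun b : B => c b := by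
    rw [hc]
    exact hB.algebraicClosure
  have htb : IsTranscendenceBasis K (fun _ : Fin 1 => T) := by
    have hi : AlgebraicIndependent K (fun _ : Fin 1 => T) :=
      algebraicIndependent_unique_type_iff.2 hX
    refine hi.isTranscendenceBasis_of_trdeg_le ?_ ?_
    · rw [htr]
      exact Cardinal.natCast_lt_aleph0
    · rw [htr]
      simp
  obtain ⟨δ, hδS, hδ⟩ := exists_dualsG (k0 := algebraicClosure k K) htb (fun b : B => c b) hind
  have hδ' : ∀ b b' : B, (b = b' ∧ δ b (algebraMap K L (c b')) = 1) ∨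
      (b ≠ b' ∧ δ b (algebraMap K L (c b')) = 0) := by
    intro b b'
    by_cases hbb : b = b'
    · exact Or.inl ⟨hbb, (hδ b b').trans (if_pos hbb)⟩
    · exact Or.inr ⟨hbb, (hδ b b').trans (if_neg hbb)⟩
  have hX1 : Transcendental K (T + 1) := by
    intro h1
    apply hX
    have h2 := h1.sub (isAlgebraic_one (R := K) (A := L))
    rwa [add_sub_cancel_right] at h2
  have htop1 : IntermediateField.adjoin K {T + 1} = ⊤ := by
    rw [eq_top_iff, ← hadj, IntermediateField.adjoin_le_iff]
    intro z hz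
    rw [Set.mem_singleton_iff.1 hz]
    have h1 := sub_mem (IntermediateField.mem_adjoin_simple_self K (T + 1))
      (one_mem (IntermediateField.adjoin K {T + 1}))
    rwa [add_sub_cancel_right] at h1
  have key : ∀ p r : Fin (n + 1) → K, LineIn (eqs V H C) p r → FewPoints H C p r →
      (∀ b, b ∉ C → ∃ u v : K, eval (fun i => u * p i + v * r i) (H b) ≠ 0) →
      ∃ (i0 i1 : Fin (n + 1)) (p' r' : Fin (n + 1) → K), p' i0 = 1 ∧ p' i1 = 0 ∧ r' i0 = 0 ∧
        r' i1 = 1 ∧ p' ∈ Submodule.span K (Set.range ![p, r]) ∧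
        r' ∈ Submodule.span K (Set.range ![p, r]) ∧
        ∀ t : L, Transcendental K t → IntermediateField.adjoin K {t} = ⊤ →
        ExP (jv (algebraicClosure k K) d I0) (fun a _ => d a) q ⟨(), i0⟩ B L
          (fun b => algebraMap K L (c b))
          (fun b r => δ b (algebraMap K L (c r)))
          (fun v : V1 n => algebraMap K L (p' v.2) +
            t * algebraMap K L (r' v.2)) := by
    intro p r hl hfew hne
    obtain ⟨i0, i1, p', r', -, hp0, hp1, hr0, hr1, hmem, hpr⟩ := exists_nb hl.1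
    have hin : ∀ z : Fin (n + 1) → K, (∃ a b : K, ∀ i, z i = a * p i + b * r i) →
        z ∈ Submodule.span K (Set.range ![p, r]) := by
      rintro z ⟨a, b, hab⟩
      rw [Matrix.range_cons, Matrix.range_cons, Matrix.range_empty, Set.union_empty,
        Set.singleton_union, Submodule.mem_span_pair]
      exact ⟨a, b, funext fun i => (hab i).symm⟩
    refine ⟨i0, i1, p', r', hp0, hp1, hr0, hr1, hin _ ?_, hin _ ?_, fun t ht htop => ?_⟩
    · obtain ⟨a, b, hab⟩ := hmem 1 0
      exact ⟨a, b, fun i => by rw [← hab, one_mul, zero_mul, add_zero]⟩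
    · obtain ⟨a, b, hab⟩ := hmem 0 1
      exact ⟨a, b, fun i => by rw [← hab, one_mul, zero_mul, zero_add]⟩
    · exact exc_of_bad hV h C hnum hI0 hBs (hq'.imp id fun h => h.1) (fun p => by rw [hc]) δ hδS
        hδ' htr hl hfew hne hp0 hp1 hr0 hr1 hmem hpr ht htop
  obtain ⟨i0, i1, p', r', hp0, hp1, hr0, hr1, hpW, hrW, hex⟩ := key p r hl hfew hne
  obtain ⟨i2, i3, p2', r2', hp20, hp21, hr20, hr21, hpW2, hrW2, hex2⟩ := key p2 r2 hl2 hfew2 hne2
  obtain ⟨N', hN', hE'⟩ := hex _ hX hadj
  obtain ⟨P, R, hPR⟩ := exc_line (fun w hw => th_nondeg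
    (fun b => algebraMap K L (c b)) (fun b r => δ b (algebraMap K L (c r)))
        (G := fun a => {I | Dg I fun _ : Unit => d a}) (jI := jv (algebraicClosure k K) d I0)
        (fun a j => jv_surj a j) w fun a I hI => hw a I hI) hE'
  have hon : ∀ (i : Fin (n + 1)) (x : V1 n → L),
      ExP (jv (algebraicClosure k K) d I0) (fun a _ => d a) q ⟨(), i⟩ B L
        (fun b => algebraMap K L (c b))
        (fun b r => δ b (algebraMap K L (c r))) x →
      x ∈ Submodule.span L {P, R} := by
    rintro i x ⟨N, hN, hE⟩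
    rcases hq' with hq' | ⟨-, hq'⟩
    · omega
    rw [Nat.card_eq_fintype_card] at hq'
    obtain ⟨u, v, huv⟩ := hPR N _ _ hE (by omega)
    rw [Submodule.mem_span_pair]
    exact ⟨u, v, funext fun i => (huv i).symm⟩
  exact span_eq_of hl.1 hl2.1 hp0 hp1 hr0 hr1 hpW hrW hp20 hp21 hr20 hr21 hpW2 hrW2
    (hon _ _ ⟨N', hN', hE'⟩) (hon _ _ (hex _ hX1 htop1)) (hon _ _ (hex2 _ hX hadj))
    (hon _ _ (hex2 _ hX1 htop1))

/-- There is at most one bad line. -/
theorem one_bad_line [Fintype A]
    (hV : DimLE (algebraicClosure k K) V m) (h : ConditionsLE k H d s) (hq : Small n d s q)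
    (C : Finset A) (hnum : 2 * m + s + 1 ≤ ∑ a, d a + C.card + q)
    {p r p2 r2 : Fin (n + 1) → K}
    (hl : LineIn (eqs V H C) p r) (hfew : FewPoints H C p r)
    (hne : ∀ b, b ∉ C → ∃ u v : K, eval (fun i => u * p i + v * r i) (H b) ≠ 0)
    (hl2 : LineIn (eqs V H C) p2 r2) (hfew2 : FewPoints H C p2 r2)
    (hne2 : ∀ b, b ∉ C → ∃ u v : K, eval (fun i => u * p2 i + v * r2 i) (H b) ≠ 0) :
    Submodule.span K (Set.range ![p2, r2]) = Submodule.span K (Set.range ![p, r]) :=
  one_bad_line_aux (L := RatFunc K) (T := RatFunc.X) RatFunc.transcendental_X RatFunc.adjoin_X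
    (by rw [IsFF.trdeg (k := K) (K := RatFunc K), Nat.cast_one]) hV h hq C hnum hl hfew hne hl2
    hfew2 hne2

end Pool.Agent.Run7.h621.LA
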