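import Pool.Agent.Run7.h621.LG.Stm

/-!
The zeros of a form on a line.
-/

set_option autoImplicit false

namespace Pool.Agent.Run7.h621.LA

open MvPolynomial LinearAlgebra.Projectivization
open Pool.Agent.Run7.h621.LG (rs rs_eval rs_homogeneous)

variable {n : ℕ} {K : Type} [Field K]

/-- A form that is not zero on a line has finitely many zeros there. -/
theorem zeros_finite [Infinite K] {p q : Fin (n + 1) → K} {f : MvPolynomial (Fin (n + 1)) K}
    {e : ℕ} (hf : f.IsHomogeneous e) {u0 v0 : K}
    (h0 : eval (fun i => u0 * p i + v0 * q i) f ≠ 0) :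
    {P : ℙ K (Fin (n + 1) → K) | ∃ (x : Fin (n + 1) → K) (hx : x ≠ 0),
      P = Projectivization.mk K x hx ∧ eval x f = 0 ∧
      ∃ u v : K, ∀ i, x i = u * p i + v * q i}.Finite := by
  classical
  obtain ⟨g, hg⟩ : ∃ g : Polynomial K, g = aeval ![Polynomial.X, 1] (rs p q f) := ⟨_, rfl⟩
  have hge : ∀ t : K, Polynomial.eval t g = eval (fun i => t * p i + 1 * q i) f := by
    intro t
    rw [← rs_eval, hg]
    have h2 : Polynomial.aeval t (aeval ![Polynomial.X, 1] (rs p q f) : Polynomial K) =
        aeval ![t, 1] (rs p q f) := by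
      rw [← AlgHom.comp_apply]
      congr 1
      ext i
      fin_cases i
      · simp
      · simp
    rw [Polynomial.coe_aeval_eq_eval, aeval_eq_eval] at h2
    exact h2
  have hsc : ∀ u v : K, v ≠ 0 → eval (fun i => u * p i + v * q i) f =
      v ^ e * Polynomial.eval (u / v) g := by
    intro u v hv
    rw [hge, ← Pool.Agent.TH145.GH.eval_smul_hom hf]
    congr 2
    funext i
    rw [Pi.smul_apply, smul_eq_mul]
    field_simp
  have hg0 : g ≠ 0 := by
    intro h
    have h1 : ∀ u v : K, v ≠ 0 → eval ![u, v] (rs p q f) = 0 := fun u v hv => by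
      rw [rs_eval, hsc u v hv, h, Polynomial.eval_zero, mul_zero]
    have h2 : rs p q f * X 1 = 0 := by
      refine MvPolynomial.funext fun w => ?_
      rw [map_mul, map_zero, eval_X]
      by_cases hw : w 1 = 0
      · rw [hw, mul_zero]
      · have h3 : w = ![w 0, w 1] := by
          funext i
          fin_cases i <;> rfl
        rw [h3, h1 _ _ (by simpa using hw), zero_mul]
    have h3 : rs p q f = 0 := (mul_eq_zero.1 h2).resolve_right (X_ne_zero 1)
    apply h0
    rw [← rs_eval, h3, map_zero]
  refine Set.Finite.of_finite_image (f := fun P : ℙ K (Fin (n + 1) → K) => P.submodule)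
    (((Polynomial.rootSet_finite g K).image fun t =>
      Submodule.span K {(fun i => t * p i + 1 * q i : Fin (n + 1) → K)}).union
      (Set.finite_singleton (Submodule.span K {p})) |>.subset ?_)
    (Projectivization.submodule_injective.injOn)
  rintro _ ⟨P, ⟨x, hx, rfl, hxf, u, v, huv⟩, rfl⟩
  change (Projectivization.mk K x hx).submodule ∈ _
  rw [Projectivization.submodule_mk]
  have hxe : x = fun i => u * p i + v * q i := funext huv
  by_cases hv : v = 0
  · right
    have hu : u ≠ 0 := by
      rintro rfl
      apply hx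
      rw [hxe, hv]
      funext i
      simp
    have h1 : x = u • p := by
      rw [hxe, hv]
      funext i
      simp
    rw [h1, Set.mem_singleton_iff]
    exact Submodule.span_singleton_smul_eq (isUnit_iff_ne_zero.2 hu) p
  · left
    refine ⟨u / v, ?_, ?_⟩
    · rw [Polynomial.mem_rootSet]
      refine ⟨hg0, ?_⟩
      rw [Polynomial.coe_aeval_eq_eval]
      have h1 := hsc u v hv
      rw [← hxe, hxf] at h1
      exact ((mul_eq_zero.1 h1.symm).resolve_left (pow_ne_zero _ hv))
    · have h1 : x = v • (fun i => u / v * p i + 1 * q i : Fin (n + 1) → K) := by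
        rw [hxe]
        funext i
        rw [Pi.smul_apply, smul_eq_mul]
        field_simp
      change Submodule.span K {(fun i => u / v * p i + 1 * q i : Fin (n + 1) → K)} = _
      rw [h1]
      exact (Submodule.span_singleton_smul_eq (isUnit_iff_ne_zero.2 hv) _).symm

end Pool.Agent.Run7.h621.LA
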