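import Pool.Agent.Run7.h621.LA.Ineq
import Pool.Agent.Run7.h621.LA.Zeros
import Pool.Agent.Run7.h621.LG.Proj

/-!
Finiteness of the points outside of the lines.
-/

set_option autoImplicit false

namespace Pool.Agent.Run7.h621.LA

open MvPolynomial FF Pool.Agent.W603.LV Pool.Agent.W603.PV Pool.Agent.W602.GT Pool.Agent.TH145.MG
open LinearAlgebra.Projectivization
open Pool.Agent.Run7.h621.FV (Ex)
open Pool.Agent.Run7.h621.NG (Bt)
open Pool.Agent.Run7.h621.MP (Vr V1 em multi_one aeval_one dim_one Sys sys_iff NF form_eq)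
open Pool.Agent.Run7.h621.LG (Dg fw pm pm_multi pm_hSt pm_inj pm_hmo form_sum ConditionsLE Small
  LineIn OnLineIn exists_base exists_B small_of peqs)

variable {n : ℕ}

open scoped Classical in
/-- The monomials with a given vector of exponents. -/
noncomputable def jv {A : Type} (k0 : Type) [Field k0] (d : A → ℕ)
    (I0 : ∀ a, Ex (Fin (n + 1)) (d a)) (a : A) (I : V1 n →₀ ℕ) : Ex (Fin (n + 1)) (d a) :=
  if h : ∃ j', pm (k0 := k0) n d a j' = monomial I 1 then h.choose else I0 a

section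

variable {k0 K : Type} [Field k0] [Field K] [Algebra k0 K] {A : Type}
  {H : A → MvPolynomial (Fin (n + 1)) K} {d : A → ℕ} {I0 : ∀ a, Ex (Fin (n + 1)) (d a)}

theorem jv_eq (a : A) (I : V1 n →₀ ℕ) (hI : Dg (ι := Unit) I fun _ => d a) :
    pm (k0 := k0) n d a (jv k0 d I0 a I) = monomial I 1 := by
  have h := pm_hSt (k0 := k0) d a I hI
  rw [jv, dif_pos h]
  exact h.choose_spec

theorem jv_surj (a : A) (j : Ex (Fin (n + 1)) (d a)) :
    ∃ I, Dg (ι := Unit) I (fun _ => d a) ∧ jv k0 d I0 a I = j := by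
  obtain ⟨I, hI, h⟩ := pm_hmo (k0 := k0) d a j
  exact ⟨I, hI, pm_inj (k0 := k0) d a _ _ (by rw [jv_eq a I hI, h])⟩

/-- Normalised points are solutions. -/
theorem sys_sol (hH : ∀ a, (H a).IsHomogeneous (d a)) (hI0 : ∀ a, coeff (I0 a).1 (H a) ≠ 0)
    {V : Set (MvPolynomial (Fin (n + 1)) k0)} {c0 : Fin (n + 1)} {x : Fin (n + 1) → K}
    (hx1 : x c0 = 1) (hxV : ∀ f ∈ V, aeval x f = 0) (hxH : ∀ a, eval x (H a) = 0) :
    ∀ f ∈ Sys (n := fun _ : Unit => n) (pm (k0 := k0) n d) I0 (rename (em n) '' V) (fun _ => c0),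
      aeval (Sum.elim (fun p : V1 n => x p.2) fun p : Bt I0 =>
        coeff p.2.1.1 (H p.1) / coeff (I0 p.1).1 (H p.1)) f = 0 := by
  refine (sys_iff _ _).2 ⟨?_, fun _ => hx1, fun a => ?_⟩
  · rintro _ ⟨f, hf, rfl⟩
    rw [aeval_one]
    exact hxV f hf
  · have h1 : eval (fun p : V1 n => x p.2) (rename (em n) (H a)) = 0 := by
      rw [eval_rename]
      exact hxH a
    rw [form_sum (k0 := k0) hH a, form_eq (P := pm (k0 := k0) n d) (j0 := I0)
      (fun a j => coeff j.1 (H a)) hI0, map_mul, eval_C] at h1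
    exact (mul_eq_zero.1 h1).resolve_left (hI0 a)

end

variable {k K : Type} [Field k] [Field K] [IsAlgClosed K] [CharZero K] [Algebra k K]
  {m s q : ℕ} {V : Set (MvPolynomial (Fin (n + 1)) (algebraicClosure k K))}
  {A : Type} [Fintype A] {d : A → ℕ} {H : A → MvPolynomial (Fin (n + 1)) K}

/-- Finiteness of the points outside of the lines. -/
theorem points (hVh : ∀ f ∈ V, ∃ e, f.IsHomogeneous e)
    (hV : DimLE (algebraicClosure k K) V m) (h : ConditionsLE k H d s) (hq : Small n d s q)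
    (hnum : 2 * m + s + 2 ≤ ∑ a, (d a + 1) + q) (T : Finset K) :
    {P : ℙ K (Fin (n + 1) → K) | ∃ (x : Fin (n + 1) → K) (hx : x ≠ 0),
      P = Projectivization.mk K x hx ∧
      (∀ i, x i ∈ IntermediateField.adjoin (algebraicClosure k K) (T : Set K)) ∧
      (∀ f ∈ peqs V H, aeval x f = 0) ∧ ¬ OnLineIn K (peqs V H) x}.Finite := by
  classical
  have hinf : Infinite K := IsAlgClosed.instInfinite
  have hac : IsAlgClosed (algebraicClosure k K) := (algebraicClosure.isAlgClosure k K).isAlgClosed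
  have hsum : ∑ a, (d a + 1) = ∑ a, d a + Fintype.card A := by
    rw [Finset.sum_add_distrib, Finset.sum_const, smul_eq_mul, mul_one, Finset.card_univ]
  rw [hsum] at hnum
  obtain ⟨I0, hI0⟩ := exists_base h
  obtain ⟨B, hB, hBs, hBe⟩ := exists_B h I0 hI0
  have hq' := small_of hq hBe
  obtain ⟨c, hc⟩ : ∃ c : Bt I0 → K, c = fun p : Bt I0 =>
    coeff p.2.1.1 (H p.1) / coeff (I0 p.1).1 (H p.1) := ⟨_, rfl⟩
  have hind : AlgebraicIndependent (algebraicClosure k K) fun b : B => c b := by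
    rw [hc]
    exact hB.algebraicClosure
  obtain ⟨M, hM⟩ := principle hind T
  obtain ⟨h1, h2⟩ := dim_one hV
  obtain ⟨jj, hjj⟩ : ∃ jj, jj = jv (algebraicClosure k K) d I0 := ⟨_, rfl⟩
  obtain ⟨Ep, hEp⟩ : ∃ Ep : Fin (n + 1) → (V1 n → K) → Prop, ∀ c0 x, Ep c0 x ↔
      ExP jj (fun a _ => d a) q ⟨(), c0⟩ B K c M x := ⟨_, fun _ _ => Iff.rfl⟩
  have hfin : ∀ c0 : Fin (n + 1), {x : V1 n → K |
      (∀ j, x j ∈ IntermediateField.adjoin (algebraicClosure k K) (T : Set K)) ∧
      (∀ f ∈ Sys (n := fun _ : Unit => n) (pm (k0 := algebraicClosure k K) n d) I0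
        (rename (em n) '' V) (fun _ => c0), aeval (Sum.elim x c) f = 0) ∧
      ¬ Ep c0 x}.Finite := by
    intro c0
    simp only [hEp]
    refine hM (V1 n) _ (2 * (m + s)) _ (sys_alt (P := pm n d) (j0 := I0)
      (dg := fun a _ => d a) (fun a j => pm_multi d a j) h1 h2 (c0 := fun _ => c0)
      (fun a I hI => ?_) (fun a j => ?_) hBs (hq'.imp id fun h => h.1) (by omega))
      (ex_up _ _ _ _ _) (ex_down _ _ _ _ _)
    · rw [hjj]
      exact jv_eq a I hI
    · rw [hjj]
      exact jv_surj a j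
  -- the exceptional points are on one line
  have hline : ∃ p r : Fin (n + 1) → K, ∀ (c0 : Fin (n + 1)) (x : Fin (n + 1) → K), Ep c0 (fun p => x p.2) →
      ∃ u v : K, ∀ i, x i = u * p i + v * r i := by
    by_cases hex : ∃ (c0 : Fin (n + 1)) (x : Fin (n + 1) → K), Ep c0 (fun p => x p.2)
    · obtain ⟨c0', x', hx'⟩ := hex
      rw [hEp] at hx'
      obtain ⟨N', hN', hE'⟩ := hx'
      have := Fintype.ofFinite {b : Bt I0 // b ∉ B}
      obtain ⟨p, r, hpr⟩ := exc_line (fun w hw => th_nondeg c M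
        (G := fun a => {I | Dg I fun _ : Unit => d a}) (jI := jj) (fun a j => by
          rw [hjj]
          exact jv_surj a j) w fun a I hI => hw a I hI) hE'
      refine ⟨fun j => p (em n j), fun j => r (em n j), fun c0 x hx => ?_⟩
      rw [hEp] at hx
      obtain ⟨N, hN, hE⟩ := hx
      rcases hq' with hq' | ⟨-, hq'⟩
      · omega
      rw [Nat.card_eq_fintype_card] at hq'
      obtain ⟨u, v, huv⟩ := hpr N _ _ hE (by omega)
      exact ⟨u, v, fun i => huv (em n i)⟩
    · exact ⟨0, 0, fun c0 x hx => absurd ⟨c0, x, hx⟩ hex⟩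
  obtain ⟨p, r, hpr⟩ := hline
  -- the points on this line
  have hZ : {P : ℙ K (Fin (n + 1) → K) | ∃ (x : Fin (n + 1) → K) (hx : x ≠ 0),
      P = Projectivization.mk K x hx ∧ (∀ f ∈ peqs V H, aeval x f = 0) ∧
      ¬ OnLineIn K (peqs V H) x ∧ ∃ u v : K, ∀ i, x i = u * p i + v * r i}.Finite := by
    by_cases hli : LinearIndependent K ![p, r]
    · by_cases hL : LineIn (peqs V H) p r
      · refine Set.finite_empty.subset ?_
        rintro P ⟨x, hx, -, -, hx2, u, v, huv⟩
        exact hx2 ⟨p, r, hL, u, v, huv⟩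
      · have h3 : ∃ f ∈ peqs V H, ∃ u0 v0 : K, eval (fun i => u0 * p i + v0 * r i) f ≠ 0 := by
          by_contra hcon
          push Not at hcon
          exact hL ⟨hli, hcon⟩
        obtain ⟨f, hf, u0, v0, h0⟩ := h3
        obtain ⟨e, he⟩ : ∃ e, f.IsHomogeneous e := by
          rcases hf with ⟨g, hg, rfl⟩ | ⟨a, rfl⟩
          · obtain ⟨e, he⟩ := hVh g hg
            exact ⟨e, he.map _⟩
          · exact ⟨_, (h.1 a).2⟩
        refine (zeros_finite he h0).subset ?_
        rintro P ⟨x, hx, hP, hxE, -, huv⟩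
        refine ⟨x, hx, hP, ?_, huv⟩
        have h4 := hxE f hf
        rwa [aeval_eq_eval] at h4
    · have h3 : ∃ z : Fin (n + 1) → K, (∃ a : K, p = a • z) ∧ ∃ b : K, r = b • z := by
        rw [LinearIndependent.pair_iff] at hli
        push Not at hli
        obtain ⟨a, b, hab, h0⟩ := hli
        by_cases ha : a = 0
        · have hb : b ≠ 0 := h0 ha
          refine ⟨p, ⟨1, (one_smul _ _).symm⟩, 0, ?_⟩
          rw [ha, zero_smul, zero_add] at hab
          rw [zero_smul]
          exact (smul_eq_zero.1 hab).resolve_left hb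
        · refine ⟨r, ⟨- (b / a), ?_⟩, 1, (one_smul _ _).symm⟩
          have h4 : a • p = a • (- (b / a)) • r := by
            rw [smul_smul, mul_neg, mul_div_cancel₀ _ ha, neg_smul]
            exact eq_neg_of_add_eq_zero_left hab
          exact smul_right_injective _ ha h4
      obtain ⟨z, ⟨a, rfl⟩, b, rfl⟩ := h3
      refine Set.Finite.of_finite_image (f := fun P : ℙ K (Fin (n + 1) → K) => P.submodule)
        ((Set.finite_singleton (Submodule.span K {z})).subset ?_)
        (Projectivization.submodule_injective.injOn)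
      rintro _ ⟨P, ⟨x, hx, rfl, -, -, u, v, huv⟩, rfl⟩
      change (Projectivization.mk K x hx).submodule ∈ _
      rw [Projectivization.submodule_mk, Set.mem_singleton_iff]
      have h4 : x = (u * a + v * b) • z := by
        funext i
        rw [huv, Pi.smul_apply, Pi.smul_apply, Pi.smul_apply, smul_eq_mul, smul_eq_mul, smul_eq_mul]
        ring
      have h5 : u * a + v * b ≠ 0 := by
        intro h6
        apply hx
        rw [h4, h6, zero_smul]
      rw [h4]
      exact Submodule.span_singleton_smul_eq (isUnit_iff_ne_zero.2 h5) z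
  -- the other points
  have hF := (Set.finite_iUnion hfin).image fun x : V1 n → K =>
    Submodule.span K {(fun j => x (em n j) : Fin (n + 1) → K)}
  have hF' := (hF.union (hZ.image fun P : ℙ K (Fin (n + 1) → K) => P.submodule))
  refine Set.Finite.of_finite_image (f := fun P : ℙ K (Fin (n + 1) → K) => P.submodule)
    (hF'.subset ?_) (Projectivization.submodule_injective.injOn)
  rintro _ ⟨P, ⟨x, hx, rfl, hxT, hxE, hxl⟩, rfl⟩
  obtain ⟨c0, hc0⟩ := Function.ne_iff.1 hx
  have hc0' : x c0 ≠ 0 := hc0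
  obtain ⟨x', hx'⟩ : ∃ x' : Fin (n + 1) → K, x' = (x c0)⁻¹ • x := ⟨_, rfl⟩
  have hx1 : x' c0 = 1 := by
    rw [hx', Pi.smul_apply, smul_eq_mul, inv_mul_cancel₀ hc0']
  have hxx : x = x c0 • x' := by
    rw [hx', smul_smul, mul_inv_cancel₀ hc0', one_smul]
  have hxV : ∀ f ∈ V, aeval x' f = 0 := by
    intro f hf
    obtain ⟨e, he⟩ := hVh f hf
    have h3 := hxE _ (Or.inl ⟨f, hf, rfl⟩)
    rw [aeval_map_algebraMap] at h3
    rw [hx', Pool.Agent.Run7.h621.FV.aeval_smul' he, h3, mul_zero]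
  have hxH : ∀ a, eval x' (H a) = 0 := by
    intro a
    have h3 := hxE _ (Or.inr ⟨a, rfl⟩)
    rw [aeval_eq_eval] at h3
    rw [hx', Pool.Agent.TH145.GH.eval_smul_hom (h.1 a).2]
    rw [show eval x (H a) = 0 from h3, mul_zero]
  have hsp : (Projectivization.mk K x hx).submodule = Submodule.span K {x'} := by
    rw [Projectivization.submodule_mk]
    conv_lhs => rw [hxx]
    exact Submodule.span_singleton_smul_eq (isUnit_iff_ne_zero.2 hc0') x'
  by_cases hE : Ep c0 (fun p => x' p.2)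
  · right
    obtain ⟨u, v, huv⟩ := hpr c0 x' hE
    refine ⟨Projectivization.mk K x hx, ⟨x, hx, rfl, hxE, hxl, x c0 * u, x c0 * v, fun i => ?_⟩,
      rfl⟩
    have h3 : x i = x c0 * x' i := congrFun hxx i
    rw [h3, huv]
    ring
  · left
    refine ⟨fun p => x' p.2, ?_, ?_⟩
    · rw [Set.mem_iUnion]
      refine ⟨c0, fun j => ?_, ?_, hE⟩
      · rw [hx']
        exact mul_mem (inv_mem (hxT _)) (hxT _)
      · rw [hc]
        exact sys_sol (fun a => (h.1 a).2) hI0 hx1 hxV hxH
    · exact hsp.symm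

end Pool.Agent.Run7.h621.LA
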